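import Mathlib

/-!
# The corestriction of cocycles from a subgroup of index two

Let `G` act on the abelian group `A`, `H ≤ H'` subgroups of index two, `s` in `H'` but not in `H`. For
a cocycle `f` of `H` we write down the corestriction, a cocycle of `H'`.
-/

set_option autoImplicit false

namespace Pool.Agent.K6.H71.MQ

open scoped Classical

variable {G A : Type*} [Group G] [AddCommGroup A] (ρ : G → A →+ A) (H : Subgroup G)

/-- The corestriction of `f` (only the values of `f` on `H` matter). -/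
noncomputable def cor (s : G) (f : G → A) (g : G) : A :=
  if g ∈ H then f g + ρ s (f (s⁻¹ * g * s)) else f (g * s) + ρ s (f (s⁻¹ * g))

/-- `H` is a subgroup of `H'` of index two, `s` is in `H'` and not in `H`. -/
structure Two (H H' : Subgroup G) (s : G) : Prop where
  le : H ≤ H'
  mem : s ∈ H'
  notMem : s ∉ H
  mul : ∀ g ∈ H', g ∉ H → ∀ g' ∈ H', g' ∉ H → g * g' ∈ H

variable {H} {H' : Subgroup G} {s : G}

theorem Two.inv (h : Two H H' s) : s⁻¹ ∉ H := fun h' => h.notMem (by simpa using H.inv_mem h')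

theorem Two.inv_mul (h : Two H H' s) {g : G} (hg : g ∈ H') (hg' : g ∉ H) : s⁻¹ * g ∈ H :=
  h.mul _ (H'.inv_mem h.mem) h.inv _ hg hg'

theorem Two.mul_s (h : Two H H' s) {g : G} (hg : g ∈ H') (hg' : g ∉ H) : g * s ∈ H :=
  h.mul _ hg hg' _ h.mem h.notMem

theorem Two.conj (h : Two H H' s) {g : G} (hg : g ∈ H) : s⁻¹ * g * s ∈ H := by
  refine h.mul _ (H'.mul_mem (H'.inv_mem h.mem) (h.le hg)) (fun h' => h.inv ?_) _ h.mem h.notMem
  have := H.mul_mem h' (H.inv_mem hg)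
  simpa using this

theorem Two.not_left (_h : Two H H' s) {g g' : G} (hg : g ∈ H) (hg' : g' ∉ H) : g * g' ∉ H :=
  fun h' => hg' (by simpa using H.mul_mem (H.inv_mem hg) h')

theorem Two.not_right (_h : Two H H' s) {g g' : G} (hg : g ∉ H) (hg' : g' ∈ H) : g * g' ∉ H :=
  fun h' => hg (by simpa using H.mul_mem h' (H.inv_mem hg'))

section

variable (hm : ∀ g h a, ρ (g * h) a = ρ g (ρ h a)) {f : G → A}
  (hf : ∀ g ∈ H, ∀ h ∈ H, f (g * h) = f g + ρ g (f h))

include hm hf in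
/-- The corestriction is a cocycle. -/
theorem cor_mul (h2 : Two H H' s) {g h : G} (hg : g ∈ H') (hh : h ∈ H') :
    cor ρ H s f (g * h) = cor ρ H s f g + ρ g (cor ρ H s f h) := by
  unfold cor
  by_cases h3 : g ∈ H <;> by_cases h4 : h ∈ H
  · rw [if_pos (H.mul_mem h3 h4), if_pos h3, if_pos h4, hf g h3 h h4]
    have e : s⁻¹ * (g * h) * s = (s⁻¹ * g * s) * (s⁻¹ * h * s) := by group
    rw [e, hf _ (h2.conj h3) _ (h2.conj h4), map_add, map_add, ← hm s, ← hm g]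
    have e2 : s * (s⁻¹ * g * s) = g * s := by group
    rw [e2]
    abel
  · rw [if_neg (h2.not_left h3 h4), if_pos h3, if_neg h4]
    have e : g * h * s = g * (h * s) := by group
    have e2 : s⁻¹ * (g * h) = (s⁻¹ * g * s) * (s⁻¹ * h) := by group
    rw [e, e2, hf g h3 _ (h2.mul_s hh h4), hf _ (h2.conj h3) _ (h2.inv_mul hh h4), map_add, map_add,
      ← hm s, ← hm g]
    have e3 : s * (s⁻¹ * g * s) = g * s := by group
    rw [e3]
    abel
  · rw [if_neg (h2.not_right h3 h4), if_neg h3, if_pos h4]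
    have e : g * h * s = (g * s) * (s⁻¹ * h * s) := by group
    have e2 : s⁻¹ * (g * h) = (s⁻¹ * g) * h := by group
    rw [e, e2, hf _ (h2.mul_s hg h3) _ (h2.conj h4), hf _ (h2.inv_mul hg h3) _ h4, map_add, map_add,
      ← hm s, ← hm g, hm g s]
    have e3 : s * (s⁻¹ * g) = g := by group
    rw [e3]
    abel
  · rw [if_pos (h2.mul _ hg h3 _ hh h4), if_neg h3, if_neg h4]
    have e : g * h = (g * s) * (s⁻¹ * h) := by group
    have e2 : s⁻¹ * (g * h) * s = (s⁻¹ * g) * (h * s) := by group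
    rw [e2]
    conv_lhs => rw [e]
    rw [hf _ (h2.mul_s hg h3) _ (h2.inv_mul hh h4), hf _ (h2.inv_mul hg h3) _ (h2.mul_s hh h4),
      map_add, map_add, ← hm s, ← hm g, hm g s]
    have e3 : s * (s⁻¹ * g) = g := by group
    rw [e3]
    abel

variable (h1 : ∀ a, ρ 1 a = a)

include h1 hf in
theorem f_one : f 1 = 0 := by
  have h := hf 1 H.one_mem 1 H.one_mem
  rw [mul_one, h1] at h
  simpa using h.symm

include hm hf h1 in
/-- Another representative. -/
theorem cor_change (h2 : Two H H' s) {h0 : G} (hh : h0 ∈ H) {g : G} (hg : g ∈ H') :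
    cor ρ H (s * h0) f g = cor ρ H s f g + (ρ g (ρ s (f h0)) - ρ s (f h0)) := by
  have hinv : ρ h0 (f h0⁻¹) = - f h0 := by
    have h3 := hf h0 hh h0⁻¹ (H.inv_mem hh)
    rw [mul_inv_cancel, f_one ρ hf h1] at h3
    exact (neg_eq_of_add_eq_zero_right h3.symm).symm
  have hh' := H.inv_mem hh
  unfold cor
  by_cases h3 : g ∈ H
  · rw [if_pos h3, if_pos h3]
    have e : (s * h0)⁻¹ * g * (s * h0) = h0⁻¹ * ((s⁻¹ * g * s) * h0) := by group
    rw [e, hf _ hh' _ (H.mul_mem (h2.conj h3) hh), hf _ (h2.conj h3) _ hh, hm s h0,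
      map_add (ρ h0), ← hm h0 h0⁻¹, mul_inv_cancel, h1, hinv, map_add, map_add, ← hm s (s⁻¹ * g * s),
      map_neg, ← hm g s]
    have e3 : s * (s⁻¹ * g * s) = g * s := by group
    rw [e3]
    abel
  · rw [if_neg h3, if_neg h3]
    have e : g * (s * h0) = (g * s) * h0 := by group
    have e2 : (s * h0)⁻¹ * g = h0⁻¹ * (s⁻¹ * g) := by group
    rw [e, e2, hf _ (h2.mul_s hg h3) _ hh, hf _ hh' _ (h2.inv_mul hg h3), hm s h0, map_add (ρ h0),
      ← hm h0 h0⁻¹, mul_inv_cancel, h1, hinv, map_add, map_neg, ← hm g s]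
    abel

end

/-- On a cocycle which is the coboundary of `P`, and with a homomorphism `j`. -/
theorem cor_cob {G₁ A₁ : Type*} [Group G₁] [AddCommGroup A₁] (ρ₁ : G₁ → A₁ →+ A₁)
    (hm₁ : ∀ g h a, ρ₁ (g * h) a = ρ₁ g (ρ₁ h a)) (j : A →+ A₁) (h2 : Two H H' s) {f : G → A} {P : A₁}
    (R : G₁ → G → Prop) (hR : ∀ t g t' g', R t g → R t' g' → R (t * t') (g * g'))
    (hRi : ∀ t g, R t g → R t⁻¹ g⁻¹) (hj : ∀ t g a, R t g → j (ρ g a) = ρ₁ t (j a))
    (hP : ∀ t g, g ∈ H → R t g → j (f g) = ρ₁ t P - P) {t₀ : G₁} (ht₀ : R t₀ s) {t : G₁} {g : G}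
    (hg : g ∈ H') (hRg : R t g) :
    j (cor ρ H s f g) = ρ₁ t (P + ρ₁ t₀ P) - (P + ρ₁ t₀ P) := by
  unfold cor
  by_cases h3 : g ∈ H
  · rw [if_pos h3, map_add, hP t g h3 hRg, hj t₀ s _ ht₀,
      hP (t₀⁻¹ * t * t₀) _ (h2.conj h3) (hR _ _ _ _ (hR _ _ _ _ (hRi _ _ ht₀) hRg) ht₀),
      map_sub, map_add, ← hm₁, ← hm₁]
    have e3 : t₀ * (t₀⁻¹ * t * t₀) = t * t₀ := by group
    rw [e3]
    abel
  · rw [if_neg h3, map_add, hP (t * t₀) _ (h2.mul_s hg h3) (hR _ _ _ _ hRg ht₀), hj t₀ s _ ht₀,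
      hP (t₀⁻¹ * t) _ (h2.inv_mul hg h3) (hR _ _ _ _ (hRi _ _ ht₀) hRg),
      map_sub, map_add, ← hm₁, ← hm₁]
    have e3 : t₀ * (t₀⁻¹ * t) = t := by group
    rw [e3]
    abel

/-- The corestriction is linear. -/
theorem cor_lin (h2 : Two H H' s) {f f' u : G → A} {N : ℕ}
    (h : ∀ g ∈ H, N • (f' g - f g) = u g) {g : G} (hg : g ∈ H') :
    N • (cor ρ H s f' g - cor ρ H s f g) = cor ρ H s u g := by
  unfold cor
  by_cases h3 : g ∈ H
  · rw [if_pos h3, if_pos h3, if_pos h3, ← h g h3, ← h _ (h2.conj h3), add_sub_add_comm, smul_add,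
      ← map_sub, ← map_nsmul]
  · rw [if_neg h3, if_neg h3, if_neg h3, ← h _ (h2.mul_s hg h3), ← h _ (h2.inv_mul hg h3),
      add_sub_add_comm, smul_add, ← map_sub, ← map_nsmul]

/-- The corestriction of a coboundary. -/
theorem cor_cob' (hm : ∀ g h a, ρ (g * h) a = ρ g (ρ h a)) (h2 : Two H H' s) {P : A} {g : G}
    (hg : g ∈ H') :
    cor ρ H s (fun g => ρ g P - P) g = ρ g (P + ρ s P) - (P + ρ s P) :=
  cor_cob ρ ρ hm (AddMonoidHom.id A) h2 (fun t g => t = g) (by rintro t g t' g' rfl rfl; rfl)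
    (by rintro t g rfl; rfl) (by rintro t g a rfl; rfl) (by rintro t g - rfl; rfl) rfl hg rfl

section conj

variable (κ : G →* G) (T : A →+ A) (hT : ∀ g a, T (ρ (κ g) a) = ρ g (T a))
  (hκ : ∀ g, κ g ∈ H ↔ g ∈ H)

include hT hκ in
theorem cor_conj {f : G → A} {s' : G} (hs : κ s' = s) (g : G) :
    T (cor ρ H s f (κ g)) = cor ρ H s' (fun g => T (f (κ g))) g := by
  unfold cor
  by_cases h3 : g ∈ H
  · rw [if_pos ((hκ g).2 h3), if_pos h3, map_add, ← hs, hT]
    simp only [map_mul, map_inv]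
  · rw [if_neg (fun h => h3 ((hκ g).1 h)), if_neg h3, map_add, ← hs, hT]
    simp only [map_mul, map_inv]

include hT hκ in
/-- The invariance of the corestriction. -/
theorem cor_inv (hm : ∀ g h a, ρ (g * h) a = ρ g (ρ h a)) (h1 : ∀ a, ρ 1 a = a) {f : G → A}
    (hf : ∀ g ∈ H, ∀ h ∈ H, f (g * h) = f g + ρ g (f h)) (h2 : Two H H' s)
    {s' : G} (hs : κ s' = s) (hs' : s⁻¹ * s' ∈ H) {N : ℕ} {Q : A}
    (hQ : ∀ g ∈ H, N • (T (f (κ g)) - f g) = ρ g Q - Q) {g : G} (hg : g ∈ H') :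
    N • (T (cor ρ H s f (κ g)) - cor ρ H s f g) =
      ρ g (N • ρ s (T (f (κ (s⁻¹ * s')))) + (Q + ρ s Q)) -
        (N • ρ s (T (f (κ (s⁻¹ * s')))) + (Q + ρ s Q)) := by
  rw [cor_conj ρ κ T hT hκ hs]
  have hf' : ∀ g ∈ H, ∀ h ∈ H, (fun g => T (f (κ g))) (g * h) =
      (fun g => T (f (κ g))) g + ρ g ((fun g => T (f (κ g))) h) := by
    intro g hg h hh
    show T (f (κ (g * h))) = T (f (κ g)) + ρ g (T (f (κ h)))
    rw [map_mul, hf _ ((hκ g).2 hg) _ ((hκ h).2 hh), map_add, hT]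
  have h3 := cor_change (f := fun g => T (f (κ g))) ρ hm hf' h1 h2 hs' hg
  have e : s * (s⁻¹ * s') = s' := by group
  rw [e] at h3
  have h4 := cor_lin (f' := fun g => T (f (κ g))) (u := fun g => ρ g Q - Q) ρ h2 hQ hg
  rw [cor_cob' ρ hm h2 hg] at h4
  rw [h3, add_sub_right_comm, smul_add, h4, smul_sub, ← map_nsmul]
  simp only [map_add]
  abel

end conj

end Pool.Agent.K6.H71.MQ
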