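import Pool.Agent.TH115.GD.Ext
import Pool.Agent.TH115.ID.Defs

/-!
# The Tate conjecture at two for elliptic surfaces over coverings of the line

`K = k(t)`, `F = k'(t)` with `k'` a separable closure of `k`, `Ω = Sep F` a separable closure of `F`. A
finite extension `L` of `K` in `Ω` is the function field of a curve over (a finite extension of) `k`,
and `F L` is the function field of this curve over `k'`. The Galois groups of `Ω` over `L` and `F L`,
the classes in the 2-adic Selmer group of an elliptic curve `W` over `F L`, and the statement that those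
which are fixed by the Galois group of `L` come from `W(L)`.
-/

set_option autoImplicit false

open Polynomial IsDedekindDomain WeierstrassCurve WeierstrassCurve.Affine
open scoped Classical

namespace Pool.Agent.K6.H71.MQ

open Pool.Agent.TH115.GD

section defs

variable {K F : Type} [Field K] [Field F] [Algebra K F]

/-- The Galois group of `Sep F` over the composite `F L` of `F` and `L`. -/
def GalOver (L : IntermediateField K (Sep F)) : Subgroup (Sep F ≃ₐ[F] Sep F) where
  carrier := {σ | ∀ x ∈ L, σ x = x}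
  mul_mem' := by
    intro σ τ h1 h2 x hx
    show σ (τ x) = x
    rw [h2 x hx, h1 x hx]
  one_mem' := fun _ _ => rfl
  inv_mem' := by
    intro σ h x hx
    show σ.symm x = x
    rw [AlgEquiv.symm_apply_eq, h x hx]

variable (W : WeierstrassCurve K)

/-- Continuous 1-cocycles of the subgroup `H` of `Gal(Sep F / F)` with values in `W(Sep F)`. -/
structure IsCocOn (H : Subgroup (Sep F ≃ₐ[F] Sep F)) (f : H → Pt W (Sep F)) : Prop where
  lc : IsLocallyConstant f
  mul : ∀ σ τ : H, f (σ * τ) = f σ + act W (rs K (σ : Sep F ≃ₐ[F] Sep F)) (f τ)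

/-- `c` is a continuous 1-cocycle of `H` with values in the Tate module `T_2 W`: `c n` is a cocycle with
values in the points of order `2 ^ n`, and `2 c (n + 1) = c n`. -/
structure IsTCOn (H : Subgroup (Sep F ≃ₐ[F] Sep F)) (c : ℕ → H → Pt W (Sep F)) : Prop where
  coc : ∀ n, IsCocOn W H (c n)
  zero : ∀ σ, c 0 σ = 0
  two : ∀ n σ, 2 • c (n + 1) σ = c n σ

/-- The class of `c` in `H ^ 1 (F L, V_2 W)` is fixed by the Galois group of `L`: for each automorphism
`τ` of `Sep F` over `L` there is an `m` such that `2 ^ m (τ c - c)` is the coboundary of an element `Q` of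
the Tate module. Here `(τ c) (σ) = τ (c (σ'))` with `σ' = τ⁻¹ σ τ`. -/
def IsInvOn (L : IntermediateField K (Sep F)) (c : ℕ → GalOver L → Pt W (Sep F)) : Prop :=
  ∀ τ : Sep F ≃ₐ[K] Sep F, (∀ x ∈ L, τ x = x) → ∃ (m : ℕ) (Q : ℕ → Pt W (Sep F)), IsTM W Q ∧
    ∀ (n : ℕ) (σ σ' : GalOver L),
      (∀ x, τ ((σ' : Sep F ≃ₐ[F] Sep F) x) = (σ : Sep F ≃ₐ[F] Sep F) (τ x)) →
      2 ^ m • (act W (ak τ) (c n σ') - c n σ) =
        act W (rs K (σ : Sep F ≃ₐ[F] Sep F)) (Q n) - Q n

/-- `E` is an extension of `F` (a completion of `F`) and `Ω'` a separable closure of `E`. The fields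
`E ι(L)`, for the embeddings `ι` of `Sep F` in `Ω'` over `F`, are the completions of `F L` at the places
above the given place of `F`. For each `ι` the restriction of `f` to the Galois group of `Ω'` over
`E ι(L)`, with values in `W(Ω')`, is a coboundary: there is a point `P` in `W(Ω')` with
`f(τ|Sep F) = τ P - P` for all `τ` in `Gal(Ω' / E)` which are trivial on `ι(L)`; here `H` is the Galois
group of `Sep F` over `F L`. -/
def LocTrivOn (H : Subgroup (Sep F ≃ₐ[F] Sep F)) (E Ω' : Type) [Field E] [Field Ω'] [Algebra K E]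
    [Algebra E Ω'] [Algebra K Ω'] [Algebra F Ω'] [IsScalarTower K E Ω'] [IsScalarTower K F Ω']
    (f : H → Pt W (Sep F)) : Prop :=
  ∀ ι : Sep F →ₐ[F] Ω', ∃ P : Pt W Ω', ∀ (τ : Ω' ≃ₐ[E] Ω') (σ : H),
    (∀ x, τ (ι x) = ι ((σ : Sep F ≃ₐ[F] Sep F) x)) →
      act W (ι.restrictScalars K) (f σ) = act W (rs K τ) P - P

/-- `f` is locally trivial at all the places of `F L`. -/
def LocallyTrivialOn (k' : Type) [Field k'] [Algebra k'[X] F] [IsFractionRing k'[X] F]
    (H : Subgroup (Sep F ≃ₐ[F] Sep F)) (f : H → Pt W (Sep F)) : Prop :=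
  (∀ v : HeightOneSpectrum k'[X], LocTrivOn W H (Comp k'[X] F v) (Sep (Comp k'[X] F v)) f) ∧
  LocTrivOn W H (CompInf k' F) (Sep (CompInf k' F)) f

/-- The Tate conjecture at the prime 2 for the elliptic surface with generic fibre `W` over the function
field `L` of a curve: the classes in the 2-adic Selmer group `V_2 Sel(W / F L)` which are fixed by the
Galois group of `L` come from `W(L)`. If `c` is a cocycle of `Gal(Sep F / F L)` with values in `T_2 W`
which is everywhere locally trivial, and the class of `c` in `H ^ 1 (F L, V_2 W)` is fixed by the Galois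
group of `L`, then there is an `m` such that for every `n` there are a point `P` of `W(L)` and a point `R`
with `2 ^ n R = P` and `2 ^ m c n σ = σ R - R` for all `σ`. -/
def TateOver (k' : Type) [Field k'] [Algebra k'[X] F] [IsFractionRing k'[X] F]
    (L : IntermediateField K (Sep F)) : Prop :=
  ∀ c : ℕ → GalOver L → Pt W (Sep F), IsTCOn W (GalOver L) c →
    (∀ n, LocallyTrivialOn W k' (GalOver L) (c n)) → IsInvOn W L c →
    ∃ m : ℕ, ∀ n, ∃ (P : Pt W L) (R : Pt W (Sep F)), 2 ^ n • R = act W L.val P ∧
      ∀ σ : GalOver L, 2 ^ m • c n σ = act W (rs K (σ : Sep F ≃ₐ[F] Sep F)) R - R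

end defs

end Pool.Agent.K6.H71.MQ
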