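import Pool.Agent.K6.H71.MQ.Stm
import Pool.Agent.K6.H71.AS2

/-!
# Multiquadratic covers, over perfect fields
-/

set_option autoImplicit false

open Polynomial WeierstrassCurve WeierstrassCurve.Affine
open scoped Classical

namespace Pool.Agent.K6.H71.MQ

open Pool.Agent.TH115.GD Pool.Agent.R939.EI Pool.Agent.R915.It

section

variable {k : Type} [Field k] (k' K F : Type) [Field k'] [Field K] [Algebra k[X] K] [Field F]
  [Algebra k'[X] F] [IsFractionRing k'[X] F] [Algebra K F]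

/-- `δ` is a square root of the polynomial `P`. -/
def SqrtOf (P : k[X]) (δ : Sep F) : Prop := δ ^ 2 = algebraMap K (Sep F) (algebraMap k[X] K P)

/-- The Tate conjecture at 2 holds for `y ^ 2 = x (x ^ 2 + a x + b)` over the field `L = K(δ i, i ∈ ι)`. -/
def HoldsOver (a b : k[X]) {ι : Type} (δ : ι → Sep F) : Prop :=
  TateAtTwoOver (F := F) (crvT (algebraMap k[X] K a) (algebraMap k[X] K b))
    (IntermediateField.adjoin K (Set.range δ)) k'

end

section

variable {k k' K F : Type} [Field k] [Field k'] [Algebra k k'] [Field K]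
    [Algebra k[X] K] [Field F] [Algebra k'[X] F] [IsFractionRing k'[X] F] [Algebra K F]

theorem multi_main [PerfectField k] (hT : IsTower k k' K F) (h2 : (2 : k) ≠ 0) {a b h : k[X]}
    (hNb : NotNorm b) (hNd : NotNorm (a ^ 2 - 4 * b))
    (hO : OnlyTrivial a b) (hO' : OnlyTrivial (-2 * a) (a ^ 2 - 4 * b)) (hodd : Odd h.natDegree)
    (hi : Inert (b * (a ^ 2 - 4 * b)) h) {ι : Type} [Fintype ι] (D : ι → k[X]) (e : ι → k)
    (δ : ι → Sep F) (hD : ∀ i, InertIn (a.comp h) (b.comp h) (D i)) (he : ∀ i, e i ≠ 0)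
    (hind : ∀ I : Finset ι, I.Nonempty → ∀ (c : k) (g : k[X]), ∏ i ∈ I, D i ≠ C c * g ^ 2)
    (hδ : ∀ i, SqrtOf K F (C (e i) * D i) (δ i)) (D₀ : k[X]) (e₀ : k)
    (hD₀ : InertIn (a.comp h) (b.comp h) D₀) (he₀ : e₀ ≠ 0) :
    HoldsOver k' K F (C e₀ * (a.comp h * D₀)) (C (e₀ ^ 2) * (b.comp h * D₀ ^ 2)) δ := by
  refine tateAtTwoOver_of k' (tateOver_of_twists hT h2 D e he δ hδ hind (fun I c hc => ?_))
  have h3 := Pool.Agent.K6.H71.AS.tate_of_inert (F := F) hT h2 hNb hNd hO hO' hodd hi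
    (inertIn_mul hD₀ (inertIn_prod D I fun i _ => hD i)) (e := c * e₀) (mul_ne_zero hc he₀)
  have e1 : C (c * e₀) * (a.comp h * (D₀ * ∏ i ∈ I, D i)) =
      C c * ((∏ i ∈ I, D i) * (C e₀ * (a.comp h * D₀))) := by
    rw [C_mul]
    ring
  have e2 : C ((c * e₀) ^ 2) * (b.comp h * (D₀ * ∏ i ∈ I, D i) ^ 2) =
      C (c ^ 2) * ((∏ i ∈ I, D i) ^ 2 * (C (e₀ ^ 2) * (b.comp h * D₀ ^ 2))) := by
    rw [mul_pow, C_mul]
    ring
  rw [e1, e2] at h3
  exact h3

end

/-- A nonempty product of distinct monic irreducible polynomials is not a constant times a square. -/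
theorem prod_ne_sq {k : Type} [Field k] {T : Finset k[X]} (hT : ∀ D ∈ T, D.Monic ∧ Irreducible D)
    (hne : T.Nonempty) (c : k) (g : k[X]) : ∏ D ∈ T, D ≠ C c * g ^ 2 := by
  intro he
  obtain ⟨x, hx⟩ := hne
  have hx' := (hT x hx).2
  have hsf : Squarefree (∏ D ∈ T, D) := by
    apply Finset.squarefree_prod_of_pairwise_isCoprime
    · intro D hD E hE hne
      refine IsCoprime.isRelPrime ((Irreducible.coprime_iff_not_dvd (hT D hD).2).2 fun hd => hne ?_)
      exact eq_of_monic_of_associated (hT D hD).1 (hT E hE).1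
        ((hT D hD).2.associated_of_dvd (hT E hE).2 hd)
    · intro D hD
      exact (hT D hD).2.squarefree
  have h1 : IsUnit g := hsf g ⟨C c, by rw [he]; ring⟩
  obtain ⟨u, hu, rfl⟩ := Polynomial.isUnit_iff.1 h1
  have h2 : x ∣ C (c * u ^ 2) := by
    rw [C_mul, C_pow, ← he]
    exact Finset.dvd_prod_of_mem _ hx
  have h3 : (∏ D ∈ T, D) ≠ 0 := Finset.prod_ne_zero_iff.2 fun D hD => (hT D hD).2.ne_zero
  have h4 : C (c * u ^ 2) ≠ (0 : k[X]) := by
    rw [C_mul, C_pow, ← he]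
    exact h3
  have h5 := natDegree_le_of_dvd h2 h4
  rw [natDegree_C] at h5
  exact absurd hx'.natDegree_pos (by omega)

end Pool.Agent.K6.H71.MQ
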