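import Pool.Agent.K6.H71.MQ.Quad

/-!
# Multiquadratic extensions
-/

set_option autoImplicit false

open Polynomial IsDedekindDomain WeierstrassCurve WeierstrassCurve.Affine
open scoped Classical

namespace Pool.Agent.K6.H71.MQ

open Pool.Agent.TH115.GD

section bot

variable {K F : Type} [Field K] [Field F] [Algebra K F]

theorem mem_galOver_bot (σ : Sep F ≃ₐ[F] Sep F) : σ ∈ GalOver (⊥ : IntermediateField K (Sep F)) := by
  intro x hx
  obtain ⟨y, rfl⟩ := IntermediateField.mem_bot.1 hx
  rw [IsScalarTower.algebraMap_apply K F (Sep F), σ.commutes]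

theorem tateOver_bot {W : WeierstrassCurve K} (k' : Type) [Field k'] [Algebra k'[X] F]
    [IsFractionRing k'[X] F] (h : TateAtTwo (F := F) k' W) :
    TateOver W k' (⊥ : IntermediateField K (Sep F)) := by
  intro c hc hl hi
  have hloc : ∀ (E : Type) [Field E] [Algebra K E] [Algebra F E] [IsScalarTower K F E] (n : ℕ),
      LocTrivOn W (GalOver (⊥ : IntermediateField K (Sep F))) E (Sep E) (c n) →
      LocTriv W E (Sep E) (fun σ => c n ⟨σ, mem_galOver_bot σ⟩) := by
    intro E _ _ _ _ n hE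
    let ι : Sep F →ₐ[F] Sep E := IsSepClosed.lift
    obtain ⟨P, hP⟩ := hE ι
    exact ⟨ι, P, fun τ σ hτ => hP τ ⟨σ, mem_galOver_bot σ⟩ hτ⟩
  have h1 : IsTC W (fun n σ => c n ⟨σ, mem_galOver_bot σ⟩) := by
    refine ⟨fun n => ⟨?_, fun σ τ => ?_⟩, fun σ => hc.zero _, fun n σ => hc.two n _⟩
    · exact (hc.coc n).lc.comp_continuous (continuous_id.subtype_mk _)
    · exact (hc.coc n).mul ⟨σ, mem_galOver_bot σ⟩ ⟨τ, mem_galOver_bot τ⟩
  have h2 : IsInv W (fun n σ => c n ⟨σ, mem_galOver_bot σ⟩) := by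
    intro τ
    obtain ⟨m, Q, hQ, hm⟩ := hi τ (fun x hx => by
      obtain ⟨y, rfl⟩ := IntermediateField.mem_bot.1 hx
      exact τ.commutes y)
    exact ⟨m, Q, hQ, fun n σ σ' hσ => hm n ⟨σ, mem_galOver_bot σ⟩ ⟨σ', mem_galOver_bot σ'⟩ hσ⟩
  have h3 := h _ h1 (fun n => ⟨fun v => hloc _ n ((hl n).1 v), hloc _ n (hl n).2⟩) h2
  refine ⟨0, fun n => ?_⟩
  obtain ⟨P, R, e1, e2⟩ := h3 n
  refine ⟨act W (Algebra.ofId K (⊥ : IntermediateField K (Sep F))) P, R, ?_, fun σ => ?_⟩
  · rw [e1, act_act]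
    congr 1
  · rw [pow_zero, one_smul]
    exact e2 σ

end bot

section signs

variable {F : Type} [Field F]

/-- Kummer theory for square roots. -/
theorem signs {ι : Type} (δ : ι → Sep F)
    (hδ : ∀ i, ∀ σ : Sep F ≃ₐ[F] Sep F, σ (δ i) = δ i ∨ σ (δ i) = -δ i) (J : Finset ι) :
    ∀ a : Sep F, (∀ σ : Sep F ≃ₐ[F] Sep F, σ a = a ∨ σ a = -a) →
      (∀ σ : Sep F ≃ₐ[F] Sep F, (∀ i ∈ J, σ (δ i) = δ i) → σ a = a) →
      ∃ I ⊆ J, ∀ σ : Sep F ≃ₐ[F] Sep F, σ (a * ∏ i ∈ I, δ i) = a * ∏ i ∈ I, δ i := by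
  induction J using Finset.induction_on with
  | empty =>
    intro a _ h2
    refine ⟨∅, le_refl _, fun σ => ?_⟩
    rw [Finset.prod_empty, mul_one]
    exact h2 σ (fun i hi => absurd hi (Finset.notMem_empty i))
  | insert j J hj ih =>
    intro a h1 h2
    by_cases hA : ∀ σ : Sep F ≃ₐ[F] Sep F, (∀ i ∈ J, σ (δ i) = δ i) → σ (δ j) = δ j
    · obtain ⟨I, hI, hI'⟩ := ih a h1 (fun σ hσ => h2 σ (fun i hi => by
        rcases Finset.mem_insert.1 hi with rfl | hi
        · exact hA σ hσ
        · exact hσ i hi))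
      exact ⟨I, hI.trans (Finset.subset_insert _ _), hI'⟩
    · push Not at hA
      obtain ⟨n, hn, hnj⟩ := hA
      have hnj' : n (δ j) = -δ j := (hδ j n).resolve_left hnj
      have key : ∀ σ : Sep F ≃ₐ[F] Sep F, (∀ i ∈ J, σ (δ i) = δ i) → σ (δ j) = -δ j →
          σ (n a) = a := by
        intro σ hσ hσj
        refine h2 (σ * n) (fun i hi => ?_)
        show σ (n (δ i)) = δ i
        rcases Finset.mem_insert.1 hi with rfl | hi
        · rw [hnj', map_neg, hσj, neg_neg]
        · rw [hn i hi, hσ i hi]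
      have hfix : ∀ σ : Sep F ≃ₐ[F] Sep F, (∀ i ∈ J, σ (δ i) = δ i) → σ (δ j) = δ j → σ a = a :=
        fun σ hσ hσj => h2 σ (fun i hi => by
          rcases Finset.mem_insert.1 hi with rfl | hi
          · exact hσj
          · exact hσ i hi)
      rcases h1 n with hna | hna
      · obtain ⟨I, hI, hI'⟩ := ih a h1 (fun σ hσ => by
          rcases hδ j σ with h | h
          · exact hfix σ hσ h
          · have := key σ hσ h
            rwa [hna] at this)
        exact ⟨I, hI.trans (Finset.subset_insert _ _), hI'⟩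
      · obtain ⟨I, hI, hI'⟩ := ih (a * δ j) (fun σ => by
          rw [map_mul]
          rcases h1 σ with h | h <;> rcases hδ j σ with h' | h' <;> rw [h, h']
          · exact Or.inl rfl
          · exact Or.inr (by ring)
          · exact Or.inr (by ring)
          · exact Or.inl (by ring)) (fun σ hσ => by
          rw [map_mul]
          rcases hδ j σ with h | h
          · rw [hfix σ hσ h, h]
          · have h3 := key σ hσ h
            rw [hna, map_neg] at h3
            rw [h]
            linear_combination δ j * h3)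
        refine ⟨insert j I, Finset.insert_subset_insert _ hI, fun σ => ?_⟩
        rw [Finset.prod_insert (fun h => hj (hI h)), ← mul_assoc]
        exact hI' σ

/-- An automorphism which changes the sign of one of the roots only. -/
theorem exists_flip {ι : Type} (δ : ι → Sep F)
    (hδ : ∀ i, ∀ σ : Sep F ≃ₐ[F] Sep F, σ (δ i) = δ i ∨ σ (δ i) = -δ i) (J : Finset ι) (j : ι)
    (hj : j ∉ J) (h : ∀ I ⊆ insert j J, I.Nonempty → ∏ i ∈ I, δ i ∉ Set.range (algebraMap F (Sep F))) :
    ∃ s : Sep F ≃ₐ[F] Sep F, (∀ i ∈ J, s (δ i) = δ i) ∧ s (δ j) = -δ j := by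
  by_contra hcon
  push Not at hcon
  obtain ⟨I, hI, hI'⟩ := signs δ hδ J (δ j) (hδ j) (fun σ hσ =>
    (hδ j σ).resolve_right (hcon σ hσ))
  refine h (insert j I) (Finset.insert_subset_insert _ hI) (Finset.insert_nonempty _ _) ?_
  rw [InfiniteGalois.mem_range_algebraMap_iff_fixed]
  intro σ
  rw [Finset.prod_insert (fun h => hj (hI h))]
  exact hI' σ

end signs

section multi

variable {K F : Type} [Field K] [Field F] [Algebra K F]

theorem fix_adjoin {S : Set (Sep F)} (τ : Sep F ≃ₐ[K] Sep F) (h : ∀ y ∈ S, τ y = y) :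
    ∀ x ∈ IntermediateField.adjoin K S, τ x = x := by
  intro x hx
  have hle : IntermediateField.adjoin K S ≤
      IntermediateField.fixedField (Subgroup.zpowers τ) := by
    rw [IntermediateField.adjoin_le_iff]
    intro y hy
    show y ∈ IntermediateField.fixedField (Subgroup.zpowers τ)
    rw [IntermediateField.mem_fixedField_iff]
    intro f hf
    obtain ⟨i, rfl⟩ := Subgroup.mem_zpowers_iff.1 hf
    exact fix_sup.zpow_fix (h y hy) i
  have h3 := hle hx
  rw [IntermediateField.mem_fixedField_iff] at h3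
  exact h3 τ (Subgroup.mem_zpowers τ)

variable (k' : Type) [Field k'] [Algebra k'[X] F] [IsFractionRing k'[X] F]

/-- **Multiquadratic extensions.** -/
theorem multi [IsGalois K (Sep F)] (h2 : (2 : K) ≠ 0) (hN : Preserves K F (Sep F)) {ι : Type}
    (D : ι → K) (hD : ∀ i, D i ≠ 0) (δ : ι → Sep F)
    (hδ : ∀ i, δ i ^ 2 = algebraMap K (Sep F) (D i)) (J : Finset ι)
    (hind : ∀ I ⊆ J, I.Nonempty → ∏ i ∈ I, δ i ∉ Set.range (algebraMap F (Sep F))) :
    ∀ A B : K, (∀ I ⊆ J, TateAtTwo (F := F) k'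
      (crvT ((∏ i ∈ I, D i) * A) ((∏ i ∈ I, D i) ^ 2 * B))) →
      TateOver (crvT A B) k' (IntermediateField.adjoin K (δ '' (J : Set ι))) := by
  induction J using Finset.induction_on with
  | empty =>
    intro A B h
    have h1 := h ∅ (le_refl _)
    rw [Finset.prod_empty, one_mul, one_pow, one_mul] at h1
    rw [Finset.coe_empty, Set.image_empty, IntermediateField.adjoin_empty]
    exact tateOver_bot k' h1
  | insert j J hj ih =>
    intro A B h
    have hind' : ∀ I ⊆ J, I.Nonempty → ∏ i ∈ I, δ i ∉ Set.range (algebraMap F (Sep F)) :=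
      fun I hI => hind I (hI.trans (Finset.subset_insert _ _))
    obtain ⟨s, hs, hsj⟩ := exists_flip δ (fun i σ => sign_of_sq (hδ i) (σ.restrictScalars K)) J j hj
      hind
    have e : IntermediateField.adjoin K (δ '' ((insert j J : Finset ι) : Set ι)) =
        IntermediateField.adjoin K (δ '' (J : Set ι)) ⊔ IntermediateField.adjoin K {δ j} := by
      rw [Finset.coe_insert, Set.image_insert_eq, Set.insert_eq, Set.union_comm,
        IntermediateField.adjoin_union]
    rw [e]
    refine quad_step k' h2 hN (hD j) (hδ j) (s := s) ?_ hsj (ih hind' A B fun I hI =>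
      h I (hI.trans (Finset.subset_insert _ _))) (ih hind' _ _ fun I hI => ?_)
    · exact fix_adjoin (s.restrictScalars K) (by
        rintro y ⟨i, hi, rfl⟩
        exact hs i hi)
    · have h1 := h (insert j I) (Finset.insert_subset_insert _ hI)
      rw [Finset.prod_insert (fun h => hj (hI h))] at h1
      have e1 : (∏ i ∈ I, D i) * (D j * A) = (D j * ∏ i ∈ I, D i) * A := by ring
      have e2 : (∏ i ∈ I, D i) ^ 2 * ((D j) ^ 2 * B) = (D j * ∏ i ∈ I, D i) ^ 2 * B := by ring
      rw [e1, e2]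
      exact h1

end multi

end Pool.Agent.K6.H71.MQ
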