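import Pool.Agent.K6.H71.MQ.Multi
import Pool.Agent.K6.H71.AS2

/-!
# The Tate conjecture over the multiquadratic extensions of `k(t)` with inert branch points
-/

set_option autoImplicit false
set_option linter.all false

open Polynomial IsDedekindDomain WeierstrassCurve WeierstrassCurve.Affine
open scoped Classical

namespace Pool.Agent.K6.H71.MQ

open Pool.Agent.TH115.GD Pool.Agent.R939.EI

section nsq

variable {k k' K F : Type} [Field k] [Field k'] [Algebra k k'] [IsSepClosure k k']
  [Field K] [Algebra k[X] K] [IsFractionRing k[X] K] [Field F] [Algebra k'[X] F]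
  [IsFractionRing k'[X] F] [Algebra K F]
  (hKF : ∀ p : k[X], algebraMap K F (algebraMap k[X] K p) =
    algebraMap k'[X] F (p.map (algebraMap k k')))

include hKF in
theorem notSq' {p : k[X]} (hp : p ≠ 0)
    (hsep : ∀ π : k[X], Irreducible π → π ∣ p → π.Separable)
    (hN : ∀ (c : k) (g : k[X]), p ≠ C c * g ^ 2) (g : F) :
    g ^ 2 ≠ algebraMap K F (algebraMap k[X] K p) := by
  haveI : IsSepClosed k' := IsSepClosure.sep_closed k
  intro hg
  obtain ⟨r, S, T, hr, hS, hS', hT, hpe⟩ := sq_dec _ p rfl hp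
  have injk := (algebraMap k k').injective
  have hS1 : S ≠ 1 := by
    rintro rfl
    exact hN r T (by rw [hpe]; ring)
  have hu : ¬ IsUnit S := fun h => hS1 (hS.eq_one_of_isUnit h)
  obtain ⟨π, hπ, hd⟩ := WfDvdMonoid.exists_irreducible_factor hu hS.ne_zero
  have hSp : S ∣ p := ⟨C r * T ^ 2, by rw [hpe]; ring⟩
  have hπs : π.Separable := hsep π hπ (hd.trans hSp)
  have hdeg : (π.map (algebraMap k k')).degree ≠ 0 := by
    rw [degree_map]
    exact (Irreducible.degree_pos hπ).ne'
  obtain ⟨θ, hθ⟩ := IsSepClosed.exists_root _ hdeg (hπs.map)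
  have hSsep : S.Separable := sep_of_sqf hS.ne_zero hS' fun π h1 h3 => hsep π h1 (h3.trans hSp)
  have hSn : S.map (algebraMap k k') ≠ 0 := (Polynomial.map_ne_zero_iff injk).2 hS.ne_zero
  have hTn : T.map (algebraMap k k') ≠ 0 := (Polynomial.map_ne_zero_iff injk).2 hT
  have hroot : (S.map (algebraMap k k')).IsRoot θ :=
    hθ.dvd (Polynomial.map_dvd _ hd)
  have hmult : (rootMultiplicity θ (p.map (algebraMap k k')) : ZMod 2) = 1 := by
    have e : p.map (algebraMap k k') = C (algebraMap k k' r) * S.map (algebraMap k k') *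
        T.map (algebraMap k k') ^ 2 := by
      rw [hpe, Polynomial.map_mul, Polynomial.map_mul, Polynomial.map_pow, map_C]
    have hCr : C (algebraMap k k' r) ≠ 0 := C_ne_zero.2 ((_root_.map_ne_zero _).2 hr)
    rw [e, rootMultiplicity_mul (mul_ne_zero (mul_ne_zero hCr hSn) (pow_ne_zero 2 hTn)),
      rootMultiplicity_mul (mul_ne_zero hCr hSn), rootMultiplicity_C, zero_add, pow_two,
      rootMultiplicity_mul (mul_ne_zero hTn hTn), Nat.cast_add, Nat.cast_add]
    have h3 : ((rootMultiplicity θ (T.map (algebraMap k k')) : ℕ) : ZMod 2) +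
        ((rootMultiplicity θ (T.map (algebraMap k k')) : ℕ) : ZMod 2) = 0 := by
      have : ∀ z : ZMod 2, z + z = 0 := by decide
      exact this _
    have h4 : rootMultiplicity θ (S.map (algebraMap k k')) ≤ 1 :=
      rootMultiplicity_le_one_of_separable hSsep.map θ
    have h5 : 0 < rootMultiplicity θ (S.map (algebraMap k k')) := (rootMultiplicity_pos hSn).2 hroot
    have h6 : rootMultiplicity θ (S.map (algebraMap k k')) = 1 := by omega
    rw [h3, add_zero, h6, Nat.cast_one]
  have hg0 : g ≠ 0 := by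
    rintro rfl
    rw [zero_pow two_ne_zero] at hg
    have : algebraMap K F (algebraMap k[X] K p) ≠ 0 := by simpa using hp
    exact this hg.symm
  have h7 := par_root hKF p hp θ
  rw [← hg, par_pow_two _ hg0, hmult] at h7
  exact absurd h7 (by decide)

end nsq

section comp

variable {k : Type} [Field k]

theorem even_card {α : Type*} (s : Multiset α) (h : ∀ a, Even (s.count a)) : Even (Multiset.card s) := by
  rw [← Multiset.toFinset_sum_count_eq s]
  exact Finset.even_sum _ fun a _ => h a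

/-- If `p` is not a constant times a square and the degree of `h` is odd, then `p(h)` is not a constant
times a square. -/
theorem ne_sq_comp [PerfectField k] {p h : k[X]} (hodd : Odd h.natDegree)
    (hN : ∀ (c : k) (g : k[X]), p ≠ C c * g ^ 2) (c : k) (g : k[X]) : p.comp h ≠ C c * g ^ 2 := by
  intro he
  have hp0 : p ≠ 0 := by
    rintro rfl
    exact hN 0 0 (by simp)
  obtain ⟨r, S, T, hr, hS, hS', hT, hpe⟩ := sq_dec _ p rfl hp0
  have hS1 : S ≠ 1 := by
    rintro rfl
    exact hN r T (by rw [hpe]; ring)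
  have hSd : S.degree ≠ 0 := by
    intro h0
    exact hS1 (hS.natDegree_eq_zero.1 (natDegree_eq_zero_iff_degree_le_zero.2 h0.le))
  set i := algebraMap k (AlgebraicClosure k) with hi
  have hinj := i.injective
  have hSsep : (S.map i).Separable := (PerfectField.separable_iff_squarefree.2 hS').map
  obtain ⟨θ, hθ⟩ := IsAlgClosed.exists_root (S.map i) (by rwa [degree_map])
  obtain ⟨S₁, hS₁⟩ := dvd_iff_isRoot.2 hθ
  have hS₁θ : S₁.eval θ ≠ 0 := by
    intro h0
    obtain ⟨S₂, hS₂⟩ := dvd_iff_isRoot.2 h0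
    have h1 : Squarefree (S.map i) := hSsep.squarefree
    have h3 := h1 (X - C θ) ⟨S₂, by rw [hS₁, hS₂]; ring⟩
    exact not_isUnit_X_sub_C θ h3
  set H := h.map i with hH
  have hHd : H.natDegree = h.natDegree := natDegree_map i
  have hHθ : (H - C θ).natDegree = h.natDegree := by rw [natDegree_sub_C, hHd]
  have hHθ0 : H - C θ ≠ 0 := by
    intro h0
    rw [h0, natDegree_zero] at hHθ
    rw [← hHθ] at hodd
    exact absurd hodd (by decide)
  have hHnc : 0 < H.natDegree := by rw [hHd]; exact hodd.pos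
  have hcompne : ∀ q : (AlgebraicClosure k)[X], q ≠ 0 → q.comp H ≠ 0 := by
    intro q hq h0
    rw [comp_eq_zero_iff] at h0
    rcases h0 with h0 | ⟨-, h0⟩
    · exact hq h0
    · rw [h0, natDegree_C] at hHnc
      exact lt_irrefl _ hHnc
  have hSn : S.map i ≠ 0 := (Polynomial.map_ne_zero_iff hinj).2 hS.ne_zero
  have hS₁0 : S₁ ≠ 0 := by
    rintro rfl
    exact hSn (by rw [hS₁, mul_zero])
  have hTn : T.map i ≠ 0 := (Polynomial.map_ne_zero_iff hinj).2 hT
  have hr' : C (i r) ≠ 0 := C_ne_zero.2 ((map_ne_zero i).2 hr)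
  have e1 : C (i r) * ((H - C θ) * S₁.comp H) * (T.map i).comp H ^ 2 = C (i c) * (g.map i) ^ 2 := by
    have h1 := congrArg (Polynomial.map i) he
    rw [map_comp, hpe, Polynomial.map_mul, Polynomial.map_mul, Polynomial.map_pow, map_C, mul_comp,
      mul_comp, pow_comp, C_comp, hS₁, mul_comp, sub_comp, X_comp, C_comp, Polynomial.map_mul,
      map_C, Polynomial.map_pow] at h1
    exact h1
  have hg0 : g.map i ≠ 0 ∧ C (i c) ≠ 0 := by
    have hne : C (i r) * ((H - C θ) * S₁.comp H) * (T.map i).comp H ^ 2 ≠ 0 :=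
      mul_ne_zero (mul_ne_zero hr' (mul_ne_zero hHθ0 (hcompne _ hS₁0))) (pow_ne_zero 2 (hcompne _ hTn))
    rw [e1] at hne
    exact ⟨fun h0 => hne (by rw [h0]; ring), fun h0 => hne (by rw [h0]; ring)⟩
  have hev : ∀ ρ, Even ((H - C θ).roots.count ρ) := by
    intro ρ
    rw [count_roots]
    by_cases hρ : (H - C θ).IsRoot ρ
    · have hHρ : H.eval ρ = θ := by
        have := hρ
        rw [IsRoot.def, eval_sub, eval_C] at this
        exact sub_eq_zero.1 this
      have h3 : rootMultiplicity ρ (S₁.comp H) = 0 := by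
        apply rootMultiplicity_eq_zero
        rw [IsRoot.def, eval_comp, hHρ]
        exact hS₁θ
      have h4 := congrArg (rootMultiplicity ρ) e1
      rw [rootMultiplicity_mul (mul_ne_zero (mul_ne_zero hr' (mul_ne_zero hHθ0 (hcompne _ hS₁0)))
          (pow_ne_zero 2 (hcompne _ hTn))),
        rootMultiplicity_mul (mul_ne_zero hr' (mul_ne_zero hHθ0 (hcompne _ hS₁0))),
        rootMultiplicity_mul (mul_ne_zero hHθ0 (hcompne _ hS₁0)), h3, rootMultiplicity_C,
        rootMultiplicity_mul (mul_ne_zero hg0.2 (pow_ne_zero 2 hg0.1)), rootMultiplicity_C, pow_two,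
        rootMultiplicity_mul (mul_ne_zero (hcompne _ hTn) (hcompne _ hTn)), pow_two,
        rootMultiplicity_mul (mul_ne_zero hg0.1 hg0.1)] at h4
      rw [Nat.even_iff]
      omega
    · rw [rootMultiplicity_eq_zero hρ]
      exact Even.zero
  have h5 := even_card _ hev
  rw [← (IsAlgClosed.splits (H - C θ)).natDegree_eq_card_roots, hHθ] at h5
  exact (Nat.not_even_iff_odd.2 hodd) h5

theorem inertIn_one (a b : k[X]) : InertIn a b 1 :=
  ⟨one_ne_zero, fun π hπ h => absurd (isUnit_of_dvd_one h) hπ.not_isUnit⟩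

theorem inertIn_mul {a b D E : k[X]} (hD : InertIn a b D) (hE : InertIn a b E) :
    InertIn a b (D * E) := by
  refine ⟨mul_ne_zero hD.1 hE.1, fun π hπ h => ?_⟩
  rcases hπ.prime.dvd_or_dvd h with h | h
  · exact hD.2 π hπ h
  · exact hE.2 π hπ h

theorem inertIn_prod {ι : Type*} {a b : k[X]} (D : ι → k[X]) (I : Finset ι)
    (h : ∀ i ∈ I, InertIn a b (D i)) : InertIn a b (∏ i ∈ I, D i) := by
  induction I using Finset.induction_on with
  | empty => rw [Finset.prod_empty]; exact inertIn_one a b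
  | insert j J hj ih =>
    rw [Finset.prod_insert hj]
    exact inertIn_mul (h j (Finset.mem_insert_self _ _)) (ih fun i hi => h i (Finset.mem_insert_of_mem hi))

end comp

section main

variable {k k' K F : Type} [Field k] [Field k'] [Algebra k k'] [Field K] [Algebra k[X] K]
    [Field F] [Algebra k'[X] F] [IsFractionRing k'[X] F] [Algebra K F]

/-- The Tate conjecture over multiquadratic extensions, for general twists. -/
theorem tateOver_of_twists [PerfectField k] (hT : IsTower k k' K F) (h2 : (2 : k) ≠ 0) {a b : k[X]}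
    {ι : Type} [Fintype ι] (D : ι → k[X]) (e : ι → k) (he : ∀ i, e i ≠ 0) (δ : ι → Sep F)
    (hδ : ∀ i, δ i ^ 2 = algebraMap K (Sep F) (algebraMap k[X] K (C (e i) * D i)))
    (hind : ∀ I : Finset ι, I.Nonempty → ∀ (c : k) (g : k[X]), ∏ i ∈ I, D i ≠ C c * g ^ 2)
    (htw : ∀ (I : Finset ι) (c : k), c ≠ 0 → TateAtTwo (F := F) k'
      (crvT (algebraMap k[X] K (C c * ((∏ i ∈ I, D i) * a)))
        (algebraMap k[X] K (C (c ^ 2) * ((∏ i ∈ I, D i) ^ 2 * b))))) :
    TateOver (F := F) (crvT (algebraMap k[X] K a) (algebraMap k[X] K b)) k'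
      (IntermediateField.adjoin K (Set.range δ)) := by
  haveI := hT.sep
  haveI := hT.fracK
  have hKF := hT.map
  have h2K : (2 : K) ≠ 0 := Pool.Agent.TH115.GD.tt h2
  haveI : IsSepClosure K (Sep F) := sepKΩ hKF
  haveI : Algebra.IsSeparable K (Sep F) := IsSepClosure.separable
  haveI : IsGalois K (Sep F) := inferInstance
  have injK := IsFractionRing.injective k[X] K
  have hD0 : ∀ i, D i ≠ 0 := by
    intro i h0
    have := hind {i} (Finset.singleton_nonempty i) 0 0
    rw [Finset.prod_singleton, h0] at this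
    simp at this
  have hDK : ∀ i, algebraMap k[X] K (C (e i) * D i) ≠ 0 := by
    intro i h0
    rw [map_eq_zero_iff _ injK] at h0
    exact mul_ne_zero (C_ne_zero.2 (he i)) (hD0 i) h0
  have h := multi k' h2K (preserves hKF) (fun i => algebraMap k[X] K (C (e i) * D i)) hDK δ hδ
    Finset.univ (fun I _ hI => ?_) (algebraMap k[X] K a) (algebraMap k[X] K b) (fun I _ => ?_)
  · rwa [Finset.coe_univ, Set.image_univ] at h
  · rintro ⟨f, hf⟩
    have h3 : f ^ 2 = algebraMap K F (algebraMap k[X] K (∏ i ∈ I, (C (e i) * D i))) := by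
      apply (algebraMap F (Sep F)).injective
      rw [map_pow, hf, ← Finset.prod_pow, ← IsScalarTower.algebraMap_apply K F (Sep F), map_prod,
        map_prod]
      exact Finset.prod_congr rfl fun i _ => hδ i
    have hprod : ∏ i ∈ I, (C (e i) * D i) = C (∏ i ∈ I, e i) * ∏ i ∈ I, D i := by
      rw [Finset.prod_mul_distrib, map_prod]
    have he0 : ∏ i ∈ I, e i ≠ 0 := Finset.prod_ne_zero_iff.2 fun i _ => he i
    refine notSq' hKF (p := ∏ i ∈ I, (C (e i) * D i)) ?_ (fun π hπ _ =>
      PerfectField.separable_of_irreducible hπ) (fun c g hcg => ?_) f h3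
    · rw [hprod]
      exact mul_ne_zero (C_ne_zero.2 he0) (Finset.prod_ne_zero_iff.2 fun i _ => hD0 i)
    · refine hind I hI (c / ∏ i ∈ I, e i) g ?_
      rw [hprod] at hcg
      have h5 : C (∏ i ∈ I, e i) * (∏ i ∈ I, D i) =
          C (∏ i ∈ I, e i) * (C (c / ∏ i ∈ I, e i) * g ^ 2) := by
        rw [hcg, ← mul_assoc, ← C_mul, mul_div_cancel₀ _ he0]
      exact mul_left_cancel₀ (C_ne_zero.2 he0) h5
  · have he0 : ∏ i ∈ I, e i ≠ 0 := Finset.prod_ne_zero_iff.2 fun i _ => he i
    have h3 := htw I _ he0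
    have e1 : C (∏ i ∈ I, e i) * ((∏ i ∈ I, D i) * a) = (∏ i ∈ I, (C (e i) * D i)) * a := by
      rw [Finset.prod_mul_distrib, map_prod]
      ring
    have e2 : C ((∏ i ∈ I, e i) ^ 2) * ((∏ i ∈ I, D i) ^ 2 * b) =
        (∏ i ∈ I, (C (e i) * D i)) ^ 2 * b := by
      rw [Finset.prod_mul_distrib, C_pow, map_prod]
      ring
    rw [e1, e2, map_mul, map_mul, map_pow, map_prod] at h3
    exact h3

end main

end Pool.Agent.K6.H71.MQ
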