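import Pool.Agent.K6.H71.MQ.Step

/-!
# The Tate conjecture over a quadratic extension follows from that for the curve and its twist
-/

set_option autoImplicit false

open Polynomial IsDedekindDomain WeierstrassCurve WeierstrassCurve.Affine
open scoped Classical

namespace Pool.Agent.K6.H71.MQ

open Pool.Agent.TH115.GD

section quad

variable {K F : Type} [Field K] [Field F] [Algebra K F]

theorem fix_sup {L : IntermediateField K (Sep F)} {δ : Sep F} (τ : Sep F ≃ₐ[K] Sep F) :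
    (∀ x ∈ L ⊔ IntermediateField.adjoin K {δ}, τ x = x) ↔ (∀ x ∈ L, τ x = x) ∧ τ δ = δ := by
  constructor
  · intro h
    exact ⟨fun x hx => h x (le_sup_left (a := L) hx), h δ ((le_sup_right (a := L)
      (b := IntermediateField.adjoin K {δ})) (IntermediateField.mem_adjoin_simple_self K δ))⟩
  · rintro ⟨h1, h2⟩ x hx
    have hle : L ⊔ IntermediateField.adjoin K {δ} ≤
        IntermediateField.fixedField (Subgroup.zpowers τ) := by
      refine sup_le (fun y hy => ?_) ?_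
      · rw [IntermediateField.mem_fixedField_iff]
        intro f hf
        obtain ⟨i, rfl⟩ := Subgroup.mem_zpowers_iff.1 hf
        exact zpow_fix (h1 y hy) i
      · rw [IntermediateField.adjoin_simple_le_iff, IntermediateField.mem_fixedField_iff]
        intro f hf
        obtain ⟨i, rfl⟩ := Subgroup.mem_zpowers_iff.1 hf
        exact zpow_fix h2 i
    have h3 := hle hx
    rw [IntermediateField.mem_fixedField_iff] at h3
    exact h3 τ (Subgroup.mem_zpowers τ)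
where
  zpow_fix {τ : Sep F ≃ₐ[K] Sep F} {y : Sep F} (h : τ y = y) (i : ℤ) : (τ ^ i) y = y := by
    have hs : τ ∈ MulAction.stabilizer (Sep F ≃ₐ[K] Sep F) y := h
    exact (MulAction.stabilizer (Sep F ≃ₐ[K] Sep F) y).zpow_mem hs i

theorem mem_galOver_sup {L : IntermediateField K (Sep F)} {δ : Sep F} (σ : Sep F ≃ₐ[F] Sep F) :
    σ ∈ GalOver (L ⊔ IntermediateField.adjoin K {δ}) ↔ σ ∈ GalOver L ∧ σ δ = δ :=
  fix_sup (σ.restrictScalars K)

theorem sign_of_sq {D : K} {δ : Sep F} (hδ : δ ^ 2 = algebraMap K (Sep F) D)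
    (τ : Sep F ≃ₐ[K] Sep F) : τ δ = δ ∨ τ δ = -δ := by
  apply sq_eq_sq_iff_eq_or_eq_neg.1
  rw [← map_pow, hδ, τ.commutes]

variable {A B D : K} {L : IntermediateField K (Sep F)} {δ : Sep F} {s : Sep F ≃ₐ[F] Sep F}

theorem two_sup (h2 : (2 : K) ≠ 0) (h0 : δ ≠ 0) (hδ : δ ^ 2 = algebraMap K (Sep F) D)
    (hs : s ∈ GalOver L) (hsδ : s δ = -δ) :
    Two (GalOver (L ⊔ IntermediateField.adjoin K {δ})) (GalOver L) s := by
  have h2' : (2 : Sep F) ≠ 0 := by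
    have := (map_ne_zero (algebraMap K (Sep F))).2 h2
    rwa [map_ofNat] at this
  refine ⟨fun σ hσ => ((mem_galOver_sup σ).1 hσ).1, hs, fun h => ?_, fun g hg hg' g' hh hh' => ?_⟩
  · have h3 := ((mem_galOver_sup s).1 h).2
    rw [hsδ] at h3
    have h4 : 2 * δ = 0 := by linear_combination -h3
    exact (mul_ne_zero h2' h0) h4
  · rw [mem_galOver_sup]
    have h3 : ∀ g ∈ GalOver L, g ∉ GalOver (L ⊔ IntermediateField.adjoin K {δ}) → g δ = -δ := by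
      intro g hg hg'
      rcases sign_of_sq hδ (g.restrictScalars K) with h | h
      · exact absurd ((mem_galOver_sup g).2 ⟨hg, h⟩) hg'
      · exact h
    refine ⟨(GalOver L).mul_mem hg hh, ?_⟩
    show g (g' δ) = δ
    rw [h3 g' hh hh', map_neg, h3 g hg hg', neg_neg]

/-- The twisted cocycle. -/
theorem tw_tc {H : Subgroup (Sep F ≃ₐ[F] Sep F)} (hδ : δ ^ 2 = algebraMap K (Sep F) D) (h0 : δ ≠ 0)
    (hH : ∀ σ ∈ H, σ δ = δ) {c : ℕ → H → Pt (crvT A B) (Sep F)} (hc : IsTCOn (crvT A B) H c) :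
    IsTCOn (crvT (D * A) (D ^ 2 * B)) H (fun n σ => tw A B hδ h0 (c n σ)) := by
  refine ⟨fun n => ⟨(hc.coc n).lc.comp _, fun σ τ => ?_⟩, fun σ => ?_, fun n σ => ?_⟩
  · show tw A B hδ h0 (c n (σ * τ)) = _
    rw [(hc.coc n).mul, map_add, tw_act hδ h0 hδ h0 _ (hH σ σ.2)]
  · rw [hc.zero, map_zero]
  · rw [← map_nsmul, hc.two]

theorem tw_loc {H : Subgroup (Sep F ≃ₐ[F] Sep F)} (hδ : δ ^ 2 = algebraMap K (Sep F) D) (h0 : δ ≠ 0)
    (hH : ∀ σ ∈ H, σ δ = δ) {E Ω' : Type} [Field E] [Field Ω'] [Algebra K E]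
    [Algebra E Ω'] [Algebra K Ω'] [Algebra F Ω'] [IsScalarTower K E Ω'] [IsScalarTower K F Ω']
    {f : H → Pt (crvT A B) (Sep F)} (hl : LocTrivOn (crvT A B) H E Ω' f) :
    LocTrivOn (crvT (D * A) (D ^ 2 * B)) H E Ω' (fun σ => tw A B hδ h0 (f σ)) := by
  intro ι
  obtain ⟨P, hP⟩ := hl ι
  have hδ' : (ι δ) ^ 2 = algebraMap K Ω' D := by
    rw [← map_pow, hδ]
    exact (ι.restrictScalars K).commutes D
  have h0' : ι δ ≠ 0 := (map_ne_zero ι).2 h0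
  refine ⟨tw A B hδ' h0' P, fun τ σ hτ => ?_⟩
  have h1 : (rs K τ) (ι δ) = ι δ := by
    show τ (ι δ) = ι δ
    rw [hτ, hH σ σ.2]
  rw [tw_act hδ h0 hδ' h0' (ι.restrictScalars K) rfl, hP τ σ hτ, map_sub,
    tw_act hδ' h0' hδ' h0' (rs K τ) h1]

theorem tw_inv (hδ : δ ^ 2 = algebraMap K (Sep F) D) (h0 : δ ≠ 0)
    {L' : IntermediateField K (Sep F)} (hL' : δ ∈ L')
    {c : ℕ → GalOver L' → Pt (crvT A B) (Sep F)} (hi : IsInvOn (crvT A B) L' c) :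
    IsInvOn (crvT (D * A) (D ^ 2 * B)) L' (fun n σ => tw A B hδ h0 (c n σ)) := by
  intro τ hτ
  obtain ⟨m, Q, hQ, hm⟩ := hi τ hτ
  refine ⟨m, fun n => tw A B hδ h0 (Q n), ⟨by rw [hQ.zero, map_zero], fun n => by
    rw [← map_nsmul, hQ.two]⟩, fun n σ σ' hσ => ?_⟩
  have h1 := hm n σ σ' hσ
  have h3 : (ak τ) δ = δ := hτ δ hL'
  have h4 : (rs K (σ : Sep F ≃ₐ[F] Sep F)) δ = δ := σ.2 δ hL'
  rw [tw_act hδ h0 hδ h0 (ak τ) h3, ← map_sub, ← map_nsmul, h1,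
    tw_act hδ h0 hδ h0 (rs K (σ : Sep F ≃ₐ[F] Sep F)) h4, map_sub]

theorem exists_pt {M Ω : Type} [Field M] [Field Ω] [Algebra K M] [Algebra K Ω] (v : M →ₐ[K] Ω)
    {A B D : K} {dM : M} (hd : dM ^ 2 = algebraMap K M D) (hd0 : dM ≠ 0) {δ : Ω}
    (hδ : δ ^ 2 = algebraMap K Ω D) (h0 : δ ≠ 0) (h : v dM = δ) (a b : ℕ) (P₁ : Pt (crvT A B) M)
    (P₂ : Pt (crvT (D * A) (D ^ 2 * B)) M) :
    ∃ P : Pt (crvT A B) M, act _ v P = a • act _ v P₁ + b • tw' A B hδ h0 (act _ v P₂) := by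
  refine ⟨a • P₁ + b • tw' A B hd hd0 P₂, ?_⟩
  rw [map_add, map_nsmul, map_nsmul, tw'_act hd hd0 hδ h0 v h]

variable (k' : Type) [Field k'] [Algebra k'[X] F] [IsFractionRing k'[X] F]

/-- **The quadratic step.** -/
theorem quad_step [IsGalois K (Sep F)] (h2 : (2 : K) ≠ 0) (hN : Preserves K F (Sep F)) (hD : D ≠ 0)
    (hδ : δ ^ 2 = algebraMap K (Sep F) D) (hs : s ∈ GalOver L) (hsδ : s δ = -δ)
    (h1 : TateOver (crvT A B) k' L) (h3 : TateOver (crvT (D * A) (D ^ 2 * B)) k' L) :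
    TateOver (crvT A B) k' (L ⊔ IntermediateField.adjoin K {δ}) := by
  have h0 : δ ≠ 0 := by
    rintro rfl
    apply hD
    rw [zero_pow two_ne_zero] at hδ
    exact (map_eq_zero (algebraMap K (Sep F))).1 hδ.symm
  set L' := L ⊔ IntermediateField.adjoin K {δ} with hL'
  have hδL : δ ∈ L' := (le_sup_right (a := L)
      (b := IntermediateField.adjoin K {δ})) (IntermediateField.mem_adjoin_simple_self K δ)
  have hTwo : Two (GalOver L') (GalOver L) s := two_sup h2 h0 hδ hs hsδ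
  have hLL : L ≤ L' := le_sup_left
  have hfix : ∀ σ ∈ GalOver L', σ δ = δ := fun σ hσ => hσ δ hδL
  have hLdi : ∀ τ : Sep F ≃ₐ[K] Sep F, (∀ x ∈ L, τ x = x) →
      (∀ x ∈ L', τ x = x) ∨ ∀ x ∈ L', s⁻¹ (τ x) = x := by
    intro τ hτ
    rcases sign_of_sq hδ τ with h | h
    · exact Or.inl ((fix_sup τ).2 ⟨hτ, h⟩)
    · right
      refine (fix_sup (τ.trans (s⁻¹.restrictScalars K))).2 ⟨fun x hx => ?_, ?_⟩
      · show s⁻¹ (τ x) = x
        rw [hτ x hx]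
        exact (GalOver L).inv_mem hs x hx
      · show s⁻¹ (τ δ) = δ
        rw [h]
        show s.symm (-δ) = δ
        rw [AlgEquiv.symm_apply_eq, hsδ]
  -- the open set
  set O : Set (Sep F ≃ₐ[F] Sep F) := {σ | σ δ = δ} with hO
  have hOo : IsOpen O :=
    (Pool.Agent.W309.TD.locConst_apply (K := F) (Ω := Sep F) δ).isOpen_fiber δ
  have hO1 : (1 : Sep F ≃ₐ[F] Sep F) ∈ O := rfl
  have hOH : ∀ g ∈ GalOver L, g ∈ O → g ∈ GalOver L' := fun g hg hgO =>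
    (mem_galOver_sup g).2 ⟨hg, hgO⟩
  intro c hc hl hi
  have hc' := tw_tc hδ h0 hfix hc
  obtain ⟨m₁, h4⟩ := h1 _ (co_tc hTwo hOo hO1 hOH hc)
    (fun n => ⟨fun v => co_loc hTwo (hc.coc n) ((hl n).1 v), co_loc hTwo (hc.coc n) (hl n).2⟩)
    (co_inv hN hTwo hLL hLdi hc hi)
  obtain ⟨m₂, h5⟩ := h3 _ (co_tc hTwo hOo hO1 hOH hc')
    (fun n => ⟨fun v => co_loc hTwo (hc'.coc n) (tw_loc hδ h0 hfix ((hl n).1 v)),
      co_loc hTwo (hc'.coc n) (tw_loc hδ h0 hfix (hl n).2)⟩)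
    (co_inv hN hTwo hLL hLdi hc' (tw_inv hδ h0 hδL hi))
  refine ⟨m₁ + m₂ + 1, fun n => ?_⟩
  obtain ⟨P₁, R₁, e1, e2⟩ := h4 n
  obtain ⟨P₂, R₂, e3, e4⟩ := h5 n
  set dL : L' := ⟨δ, hδL⟩ with hdL
  have hdδ : dL ^ 2 = algebraMap K L' D := by
    apply Subtype.ext
    exact hδ
  have hd0 : dL ≠ 0 := fun h => h0 (congrArg Subtype.val h)
  set i : L →ₐ[K] L' := IntermediateField.inclusion hLL with hi'
  obtain ⟨P, hP⟩ := exists_pt L'.val hdδ hd0 hδ h0 rfl (2 ^ m₂) (2 ^ m₁) (act _ i P₁) (act _ i P₂)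
  refine ⟨P, 2 ^ m₂ • R₁ + 2 ^ m₁ • tw' A B hδ h0 R₂, ?_, fun σ => ?_⟩
  · have hcomp : L'.val.comp i = L.val := AlgHom.ext fun x => rfl
    rw [hP, act_act, hcomp, act_act, hcomp, ← e1, ← e3, map_nsmul, smul_add, smul_comm,
      smul_comm (2 ^ n) (2 ^ m₁)]
  · -- the values on the smaller group
    have hσL : (σ : Sep F ≃ₐ[F] Sep F) ∈ GalOver L := hTwo.le σ.2
    have hcj := hTwo.conj σ.2
    have e5 := e2 ⟨σ, hσL⟩
    have e6 := e4 ⟨σ, hσL⟩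
    have e7 : co (crvT A B) (GalOver L) s (c n) ⟨σ, hσL⟩ =
        c n σ + ro _ s (c n ⟨_, hcj⟩) := by
      show cor (ro (crvT A B)) _ s (ex (c n)) (σ : Sep F ≃ₐ[F] Sep F) = _
      unfold cor
      rw [if_pos σ.2, ex_mem _ σ.2, ex_mem _ hcj]
    have e8 : co (crvT (D * A) (D ^ 2 * B)) (GalOver L) s (fun σ => tw A B hδ h0 (c n σ))
        ⟨σ, hσL⟩ = tw A B hδ h0 (c n σ - ro _ s (c n ⟨_, hcj⟩)) := by
      show cor (ro (crvT (D * A) (D ^ 2 * B))) _ s (ex (fun σ => tw A B hδ h0 (c n σ)))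
        (σ : Sep F ≃ₐ[F] Sep F) = _
      unfold cor
      rw [if_pos σ.2, ex_mem _ σ.2, ex_mem _ hcj, map_sub]
      show tw A B hδ h0 (c n σ) + act _ (rs K s) (tw A B hδ h0 (c n ⟨_, hcj⟩)) = _
      rw [tw_act_neg hδ h0 hδ h0 (rs K s) hsδ, sub_eq_add_neg]
      rfl
    have h4 : (rs K (σ : Sep F ≃ₐ[F] Sep F)) δ = δ := hfix σ σ.2
    rw [e7] at e5
    have e9 := congrArg (tw' A B hδ h0) e6
    rw [map_nsmul, e8, tw'_tw, map_sub, ← tw'_act hδ h0 hδ h0 (rs K (σ : Sep F ≃ₐ[F] Sep F)) h4]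
      at e9
    have e10 : (2 : ℕ) ^ (m₁ + m₂ + 1) • c n σ =
        2 ^ m₂ • (2 ^ m₁ • (c n σ + ro _ s (c n ⟨_, hcj⟩))) +
        2 ^ m₁ • (2 ^ m₂ • (c n σ - ro _ s (c n ⟨_, hcj⟩))) := by
      rw [smul_smul, smul_smul, ← pow_add, ← pow_add, add_comm m₂ m₁, ← smul_add, pow_succ, mul_smul,
        two_nsmul]
      congr 1
      abel
    rw [e10, e5, e9, map_add, map_nsmul, map_nsmul, smul_sub, smul_sub]
    abel

end quad

end Pool.Agent.K6.H71.MQ
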