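import Pool.Agent.TH115.GD.Ext
import Pool.Agent.TH115.ID.Defs

/-!
# The quadratic twist of `y² = x (x² + a x + b)` and the isomorphism over the quadratic extension

The homomorphism given by scaling the coordinates is the one of `Pool.Agent.N181.P3.Scale` (starting
files; copied here since that module has very many imports).
-/

set_option autoImplicit false

open WeierstrassCurve WeierstrassCurve.Affine
open scoped Classical

namespace Pool.Agent.K6.H71.MQ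

open Pool.Agent.TH115.GD

section scale

variable {K : Type} [Field K] {W W' : Affine K} {ρ : K}

/-- The coefficients of `W'` are those of `W`, scaled by `ρ`. -/
structure Scaled (W W' : Affine K) (ρ : K) : Prop where
  ne : ρ ≠ 0
  a1 : W'.a₁ = ρ * W.a₁
  a2 : W'.a₂ = ρ ^ 2 * W.a₂
  a3 : W'.a₃ = ρ ^ 3 * W.a₃
  a4 : W'.a₄ = ρ ^ 4 * W.a₄
  a6 : W'.a₆ = ρ ^ 6 * W.a₆

theorem Scaled.nons (h : Scaled W W' ρ) {x y : K} (hn : W.Nonsingular x y) :
    W'.Nonsingular (ρ ^ 2 * x) (ρ ^ 3 * y) := by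
  rw [W.nonsingular_iff, W.equation_iff] at hn
  rw [W'.nonsingular_iff, W'.equation_iff, h.a1, h.a2, h.a3, h.a4, h.a6]
  obtain ⟨h1, h2⟩ := hn
  refine ⟨by linear_combination ρ ^ 6 * h1, h2.imp ?_ ?_⟩
  · intro h3 h4
    apply h3
    apply mul_left_cancel₀ (pow_ne_zero 4 h.ne)
    linear_combination h4
  · intro h3 h4
    apply h3
    apply mul_left_cancel₀ (pow_ne_zero 3 h.ne)
    linear_combination h4

theorem Scaled.negY (h : Scaled W W' ρ) (x y : K) :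
    W'.negY (ρ ^ 2 * x) (ρ ^ 3 * y) = ρ ^ 3 * W.negY x y := by
  simp only [WeierstrassCurve.Affine.negY, h.a1, h.a3]
  ring

theorem Scaled.slope (h : Scaled W W' ρ) (x₁ x₂ y₁ y₂ : K) :
    W'.slope (ρ ^ 2 * x₁) (ρ ^ 2 * x₂) (ρ ^ 3 * y₁) (ρ ^ 3 * y₂) = ρ * W.slope x₁ x₂ y₁ y₂ := by
  have h2 := pow_ne_zero 2 h.ne
  have h3 := pow_ne_zero 3 h.ne
  have hρ := h.ne
  have ex : ρ ^ 2 * x₁ = ρ ^ 2 * x₂ ↔ x₁ = x₂ := mul_right_inj' h2
  have ey : ρ ^ 3 * y₁ = W'.negY (ρ ^ 2 * x₂) (ρ ^ 3 * y₂) ↔ y₁ = W.negY x₂ y₂ := by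
    rw [h.negY, mul_right_inj' h3]
  unfold WeierstrassCurve.Affine.slope
  by_cases hx : x₁ = x₂
  · by_cases hy : y₁ = W.negY x₂ y₂
    · rw [if_pos (ex.2 hx), if_pos (ey.2 hy), if_pos hx, if_pos hy, mul_zero]
    · rw [if_pos (ex.2 hx), if_neg (fun h => hy (ey.1 h)), if_pos hx, if_neg hy, h.negY, ← mul_sub,
        h.a1, h.a2, h.a4]
      have e : 3 * (ρ ^ 2 * x₁) ^ 2 + 2 * (ρ ^ 2 * W.a₂) * (ρ ^ 2 * x₁) + ρ ^ 4 * W.a₄ -
          ρ * W.a₁ * (ρ ^ 3 * y₁) = ρ ^ 3 * (ρ * (3 * x₁ ^ 2 + 2 * W.a₂ * x₁ + W.a₄ -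
            W.a₁ * y₁)) := by ring
      rw [e, mul_div_mul_left _ _ h3, mul_div_assoc]
  · rw [if_neg (fun h => hx (ex.1 h)), if_neg hx, ← mul_sub, ← mul_sub]
    have e : ρ ^ 3 * (y₁ - y₂) = ρ ^ 2 * (ρ * (y₁ - y₂)) := by ring
    rw [e, mul_div_mul_left _ _ h2, mul_div_assoc]

/-- The map on the points. -/
def scaleFun (h : Scaled W W' ρ) : W.Point → W'.Point
  | .zero => 0
  | .some _ _ hn => Point.some _ _ (h.nons hn)

/-- The homomorphism of the groups of points. -/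
def scaleHom (h : Scaled W W' ρ) : W.Point →+ W'.Point where
  toFun := scaleFun h
  map_zero' := rfl
  map_add' := by
    intro P Q
    cases P with
    | zero =>
      show scaleFun h (0 + Q) = 0 + scaleFun h Q
      rw [zero_add, zero_add]
    | some x₁ y₁ h₁ =>
      cases Q with
      | zero =>
        show scaleFun h (Point.some x₁ y₁ h₁ + 0) = scaleFun h (Point.some x₁ y₁ h₁) + 0
        rw [add_zero, add_zero]
      | some x₂ y₂ h₂ =>
        show scaleFun h (Point.some x₁ y₁ h₁ + Point.some x₂ y₂ h₂) =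
          Point.some _ _ (h.nons h₁) + Point.some _ _ (h.nons h₂)
        have ex : ρ ^ 2 * x₁ = ρ ^ 2 * x₂ ↔ x₁ = x₂ := mul_right_inj' (pow_ne_zero 2 h.ne)
        have ey : ρ ^ 3 * y₁ = W'.negY (ρ ^ 2 * x₂) (ρ ^ 3 * y₂) ↔ y₁ = W.negY x₂ y₂ := by
          rw [h.negY, mul_right_inj' (pow_ne_zero 3 h.ne)]
        by_cases hxy : x₁ = x₂ ∧ y₁ = W.negY x₂ y₂
        · rw [Point.add_of_Y_eq hxy.1 hxy.2, Point.add_of_Y_eq (ex.2 hxy.1) (ey.2 hxy.2)]
          rfl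
        · rw [Point.add_some hxy, Point.add_some (fun h' => hxy ⟨ex.1 h'.1, ey.1 h'.2⟩)]
          show Point.some _ _ _ = Point.some _ _ _
          have e := h.slope x₁ x₂ y₁ y₂
          have eX : ρ ^ 2 * W.addX x₁ x₂ (W.slope x₁ x₂ y₁ y₂) = W'.addX (ρ ^ 2 * x₁) (ρ ^ 2 * x₂)
              (W'.slope (ρ ^ 2 * x₁) (ρ ^ 2 * x₂) (ρ ^ 3 * y₁) (ρ ^ 3 * y₂)) := by
            rw [e]
            simp only [WeierstrassCurve.Affine.addX, h.a1, h.a2]
            ring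
          have eY : ρ ^ 3 * W.addY x₁ x₂ y₁ (W.slope x₁ x₂ y₁ y₂) = W'.addY (ρ ^ 2 * x₁)
              (ρ ^ 2 * x₂) (ρ ^ 3 * y₁)
              (W'.slope (ρ ^ 2 * x₁) (ρ ^ 2 * x₂) (ρ ^ 3 * y₁) (ρ ^ 3 * y₂)) := by
            rw [e]
            simp only [WeierstrassCurve.Affine.addY, WeierstrassCurve.Affine.negAddY,
              WeierstrassCurve.Affine.addX, WeierstrassCurve.Affine.negY, h.a1, h.a2, h.a3]
            ring
          simp only [eX, eY]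

theorem scaleHom_inj (h : Scaled W W' ρ) : Function.Injective (scaleHom h) := by
  intro P Q e
  cases P with
  | zero =>
    cases Q with
    | zero => rfl
    | some x y hn =>
      have e' : (0 : W'.Point) = Point.some _ _ (h.nons hn) := e
      cases e'
  | some x y hn =>
    cases Q with
    | zero =>
      have e' : Point.some _ _ (h.nons hn) = (0 : W'.Point) := e
      cases e'
    | some x' y' hn' =>
      have e' : (Point.some _ _ (h.nons hn) : W'.Point) = Point.some _ _ (h.nons hn') := e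
      have h1 := Point.some.inj e'
      have hx : x = x' := mul_left_cancel₀ (pow_ne_zero 2 h.ne) h1.1
      have hy : y = y' := mul_left_cancel₀ (pow_ne_zero 3 h.ne) h1.2
      subst hx hy
      rfl

end scale

section twist

variable {K Ω Ω' : Type} [Field K] [Field Ω] [Field Ω'] [Algebra K Ω] [Algebra K Ω']

theorem scaled_tw (A B : K) {D : K} {δ : Ω} (hδ : δ ^ 2 = algebraMap K Ω D) (h0 : δ ≠ 0) :
    Scaled ((crvT A B).baseChange Ω).toAffine
      ((crvT (D * A) (D ^ 2 * B)).baseChange Ω).toAffine δ := by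
  refine ⟨h0, ?_, ?_, ?_, ?_, ?_⟩
  · show (algebraMap K Ω) (0 : K) = δ * (algebraMap K Ω) (0 : K)
    rw [map_zero, mul_zero]
  · show (algebraMap K Ω) (D * A) = δ ^ 2 * (algebraMap K Ω) A
    rw [map_mul, hδ]
  · show (algebraMap K Ω) (0 : K) = δ ^ 3 * (algebraMap K Ω) (0 : K)
    rw [map_zero, mul_zero]
  · show (algebraMap K Ω) (D ^ 2 * B) = δ ^ 4 * (algebraMap K Ω) B
    rw [map_mul, map_pow, ← hδ]
    ring
  · show (algebraMap K Ω) (0 : K) = δ ^ 6 * (algebraMap K Ω) (0 : K)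
    rw [map_zero, mul_zero]

theorem scaled_tw' (A B : K) {D : K} {δ : Ω} (hδ : δ ^ 2 = algebraMap K Ω D) (h0 : δ ≠ 0) :
    Scaled ((crvT (D * A) (D ^ 2 * B)).baseChange Ω).toAffine
      ((crvT A B).baseChange Ω).toAffine δ⁻¹ := by
  have h := scaled_tw A B hδ h0
  refine ⟨inv_ne_zero h0, ?_, ?_, ?_, ?_, ?_⟩
  · rw [h.a1]; field_simp
  · rw [h.a2]; field_simp
  · rw [h.a3]; field_simp
  · rw [h.a4]; field_simp
  · rw [h.a6]; field_simp

/-- The isomorphism `(x, y) ↦ (δ ^ 2 x, δ ^ 3 y)` of the curve with its twist. -/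
def tw (A B : K) {D : K} {δ : Ω} (hδ : δ ^ 2 = algebraMap K Ω D) (h0 : δ ≠ 0) :
    Pt (crvT A B) Ω →+ Pt (crvT (D * A) (D ^ 2 * B)) Ω := scaleHom (scaled_tw A B hδ h0)

/-- The inverse. -/
def tw' (A B : K) {D : K} {δ : Ω} (hδ : δ ^ 2 = algebraMap K Ω D) (h0 : δ ≠ 0) :
    Pt (crvT (D * A) (D ^ 2 * B)) Ω →+ Pt (crvT A B) Ω := scaleHom (scaled_tw' A B hδ h0)

variable {A B D : K} {δ : Ω} (hδ : δ ^ 2 = algebraMap K Ω D) (h0 : δ ≠ 0)

theorem tw_some {x y : Ω} (hn : ((crvT A B).baseChange Ω).toAffine.Nonsingular x y) :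
    ∃ h, tw A B hδ h0 (Point.some x y hn) = Point.some (δ ^ 2 * x) (δ ^ 3 * y) h := ⟨_, rfl⟩

theorem tw'_some {x y : Ω}
    (hn : ((crvT (D * A) (D ^ 2 * B)).baseChange Ω).toAffine.Nonsingular x y) :
    ∃ h, tw' A B hδ h0 (Point.some x y hn) = Point.some (δ⁻¹ ^ 2 * x) (δ⁻¹ ^ 3 * y) h := ⟨_, rfl⟩

theorem tw'_tw (P : Pt (crvT A B) Ω) : tw' A B hδ h0 (tw A B hδ h0 P) = P := by
  rcases P with _ | ⟨x, y, hxy⟩
  · rfl
  · obtain ⟨h1, e1⟩ := tw_some hδ h0 hxy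
    rw [e1]
    obtain ⟨h2, e2⟩ := tw'_some hδ h0 h1
    rw [e2, Point.some.injEq]
    constructor <;> field_simp

variable {δ' : Ω'} (hδ' : δ' ^ 2 = algebraMap K Ω' D) (h0' : δ' ≠ 0) (φ : Ω →ₐ[K] Ω')

theorem tw_act (h : φ δ = δ') (P : Pt (crvT A B) Ω) :
    act _ φ (tw A B hδ h0 P) = tw A B hδ' h0' (act _ φ P) := by
  rcases P with _ | ⟨x, y, hxy⟩
  · rfl
  · obtain ⟨h1, e1⟩ := tw_some hδ h0 hxy
    obtain ⟨h2, e2⟩ := act_some (crvT (D * A) (D ^ 2 * B)) φ h1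
    obtain ⟨h3, e3⟩ := act_some (crvT A B) φ hxy
    obtain ⟨h4, e4⟩ := tw_some hδ' h0' h3
    rw [e1, e2, e3, e4, Point.some.injEq, map_mul, map_mul, map_pow, map_pow, h]
    exact ⟨rfl, rfl⟩

theorem tw_act_neg (h : φ δ = -δ') (P : Pt (crvT A B) Ω) :
    act _ φ (tw A B hδ h0 P) = -tw A B hδ' h0' (act _ φ P) := by
  rcases P with _ | ⟨x, y, hxy⟩
  · rfl
  · obtain ⟨h1, e1⟩ := tw_some hδ h0 hxy
    obtain ⟨h2, e2⟩ := act_some (crvT (D * A) (D ^ 2 * B)) φ h1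
    obtain ⟨h3, e3⟩ := act_some (crvT A B) φ hxy
    obtain ⟨h4, e4⟩ := tw_some hδ' h0' h3
    rw [e1, e2, e3, e4, Point.neg_some, Point.some.injEq, map_mul, map_mul, map_pow, map_pow, h]
    refine ⟨by ring, ?_⟩
    have ha1 : ((crvT (D * A) (D ^ 2 * B)).baseChange Ω').toAffine.a₁ = 0 := map_zero _
    have ha3 : ((crvT (D * A) (D ^ 2 * B)).baseChange Ω').toAffine.a₃ = 0 := map_zero _
    rw [WeierstrassCurve.Affine.negY, ha1, ha3]
    ring

theorem tw'_act (h : φ δ = δ') (P : Pt (crvT (D * A) (D ^ 2 * B)) Ω) :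
    act _ φ (tw' A B hδ h0 P) = tw' A B hδ' h0' (act _ φ P) := by
  rcases P with _ | ⟨x, y, hxy⟩
  · rfl
  · obtain ⟨h1, e1⟩ := tw'_some hδ h0 hxy
    obtain ⟨h2, e2⟩ := act_some (crvT A B) φ h1
    obtain ⟨h3, e3⟩ := act_some (crvT (D * A) (D ^ 2 * B)) φ hxy
    obtain ⟨h4, e4⟩ := tw'_some hδ' h0' h3
    rw [e1, e2, e3, e4, Point.some.injEq, map_mul, map_mul, map_pow, map_pow, map_inv₀, h]
    exact ⟨rfl, rfl⟩

end twist

end Pool.Agent.K6.H71.MQ
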