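import Pool.Agent.K6.H71.MQ.Abs
import Pool.Agent.K6.H71.MQ.Defs
import Pool.Agent.K6.H71.MQ.Twist

/-!
# Corestriction of Selmer classes in a quadratic extension
-/

set_option autoImplicit false

open Polynomial IsDedekindDomain WeierstrassCurve WeierstrassCurve.Affine
open scoped Classical

namespace Pool.Agent.K6.H71.MQ

open Pool.Agent.TH115.GD

section cor

variable {K F : Type} [Field K] [Field F] [Algebra K F] (W : WeierstrassCurve K)

/-- The action on points. -/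
noncomputable def ro (g : Sep F ≃ₐ[F] Sep F) : Pt W (Sep F) →+ Pt W (Sep F) := act W (rs K g)

theorem ro_mul (g h : Sep F ≃ₐ[F] Sep F) (a : Pt W (Sep F)) : ro W (g * h) a = ro W g (ro W h a) := by
  unfold ro
  rw [act_act]
  rfl

theorem act_self {Ω : Type} [Field Ω] [Algebra K Ω] (φ : Ω →ₐ[K] Ω) (h : ∀ x, φ x = x) (a : Pt W Ω) :
    act W φ a = a := by
  rcases a with _ | ⟨x, y, hxy⟩
  · rfl
  · obtain ⟨h1, e⟩ := act_some W φ hxy
    rw [e, Point.some.injEq]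
    exact ⟨h x, h y⟩

theorem ro_one (a : Pt W (Sep F)) : ro W (1 : Sep F ≃ₐ[F] Sep F) a = a := act_self W _ (fun _ => rfl) a

variable {W} {H H' : Subgroup (Sep F ≃ₐ[F] Sep F)} {s : Sep F ≃ₐ[F] Sep F}

/-- A function on `H`, extended by zero. -/
noncomputable def ex {A : Type} [Zero A] (f : H → A) (g : Sep F ≃ₐ[F] Sep F) : A :=
  if h : g ∈ H then f ⟨g, h⟩ else 0

theorem ex_mem {A : Type} [Zero A] (f : H → A) {g : Sep F ≃ₐ[F] Sep F} (h : g ∈ H) :
    ex f g = f ⟨g, h⟩ := dif_pos h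

theorem ex_coc {f : H → Pt W (Sep F)} (hf : IsCocOn W H f) :
    ∀ g ∈ H, ∀ h ∈ H, ex f (g * h) = ex f g + ro W g (ex f h) := by
  intro g hg h hh
  rw [ex_mem f hg, ex_mem f hh, ex_mem f (H.mul_mem hg hh)]
  exact hf.mul ⟨g, hg⟩ ⟨h, hh⟩

variable (W H') in
/-- The corestriction of `f`. -/
noncomputable def co (s : Sep F ≃ₐ[F] Sep F) (f : H → Pt W (Sep F)) (g : H') : Pt W (Sep F) :=
  cor (ro W) H s (ex f) g

theorem co_coc (h2 : Two H H' s) {O : Set (Sep F ≃ₐ[F] Sep F)} (hO : IsOpen O) (hO1 : 1 ∈ O)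
    (hOH : ∀ g ∈ H', g ∈ O → g ∈ H) {f : H → Pt W (Sep F)} (hf : IsCocOn W H f) :
    IsCocOn W H' (co W H' s f) := by
  have hmul : ∀ σ τ : H', co W H' s f (σ * τ) =
      co W H' s f σ + act W (rs K (σ : Sep F ≃ₐ[F] Sep F)) (co W H' s f τ) := fun σ τ =>
    cor_mul (ro W) (ro_mul W) (ex_coc hf) h2 σ.2 τ.2
  refine ⟨?_, hmul⟩
  have hf1 : f 1 = 0 := by
    have h := f_one (ro W) (ex_coc hf) (ro_one W)
    rwa [ex_mem f H.one_mem] at h
  -- the zeros of `f` near `1`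
  obtain ⟨V, hV, hV'⟩ : ∃ V : Set (Sep F ≃ₐ[F] Sep F), IsOpen V ∧ Subtype.val ⁻¹' V = f ⁻¹' {0} :=
    isOpen_induced_iff.1 (hf.lc.isOpen_fiber 0)
  have h1V : (1 : Sep F ≃ₐ[F] Sep F) ∈ V := by
    have : (1 : H) ∈ Subtype.val ⁻¹' V := by
      rw [hV']
      exact hf1
    exact this
  have hzero : ∀ g ∈ H, g ∈ V → ex f g = 0 := by
    intro g hg hgV
    rw [ex_mem f hg]
    have : (⟨g, hg⟩ : H) ∈ Subtype.val ⁻¹' V := hgV
    rw [hV'] at this
    exact this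
  -- the neighbourhood on which the corestriction vanishes
  set U : Set (Sep F ≃ₐ[F] Sep F) := {u | u ∈ O ∧ u ∈ V ∧ s⁻¹ * u * s ∈ V} with hU
  have hcont : Continuous fun u : Sep F ≃ₐ[F] Sep F => s⁻¹ * u * s := by fun_prop
  have hUo : IsOpen U := hO.inter (hV.inter (hV.preimage hcont))
  have hU1 : (1 : Sep F ≃ₐ[F] Sep F) ∈ U := by
    refine ⟨hO1, h1V, ?_⟩
    rw [mul_one, inv_mul_cancel]
    exact h1V
  have hU0 : ∀ u : H', (u : Sep F ≃ₐ[F] Sep F) ∈ U → co W H' s f u = 0 := by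
    intro u hu
    have hH : (u : Sep F ≃ₐ[F] Sep F) ∈ H := hOH _ u.2 hu.1
    unfold co cor
    rw [if_pos hH, hzero _ hH hu.2.1, hzero _ (h2.conj hH) hu.2.2, map_zero, add_zero]
  rw [IsLocallyConstant.iff_exists_open]
  intro g
  have hcont2 : Continuous fun x : H' => ((g⁻¹ * x : H') : Sep F ≃ₐ[F] Sep F) := by fun_prop
  refine ⟨{x | ((g⁻¹ * x : H') : Sep F ≃ₐ[F] Sep F) ∈ U}, hUo.preimage hcont2, ?_, fun x hx => ?_⟩
  · show ((g⁻¹ * g : H') : Sep F ≃ₐ[F] Sep F) ∈ U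
    rw [inv_mul_cancel]
    exact hU1
  · have h3 := hmul g (g⁻¹ * x)
    rw [mul_inv_cancel_left, hU0 _ hx, map_zero, add_zero] at h3
    exact h3

theorem co_tc (h2 : Two H H' s) {O : Set (Sep F ≃ₐ[F] Sep F)} (hO : IsOpen O) (hO1 : 1 ∈ O)
    (hOH : ∀ g ∈ H', g ∈ O → g ∈ H) {c : ℕ → H → Pt W (Sep F)} (hc : IsTCOn W H c) :
    IsTCOn W H' (fun n => co W H' s (c n)) := by
  have hex0 : ∀ g, ex (c 0) g = 0 := by
    intro g
    unfold ex
    split_ifs with h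
    · exact hc.zero _
    · rfl
  have hex2 : ∀ n g, 2 • ex (c (n + 1)) g = ex (c n) g := by
    intro n g
    unfold ex
    split_ifs with h
    · exact hc.two n _
    · exact smul_zero _
  refine ⟨fun n => co_coc h2 hO hO1 hOH (hc.coc n), fun σ => ?_, fun n σ => ?_⟩
  · show cor (ro W) H s (ex (c 0)) σ = 0
    unfold cor
    simp only [hex0, map_zero, add_zero, ite_self]
  · show 2 • cor (ro W) H s (ex (c (n + 1))) σ = cor (ro W) H s (ex (c n)) σ
    unfold cor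
    split_ifs with h
    · rw [smul_add, hex2, ← map_nsmul, hex2]
    · rw [smul_add, hex2, ← map_nsmul, hex2]

theorem Two.change (h2 : Two H H' s) {s₀ : Sep F ≃ₐ[F] Sep F} (h1 : s₀ ∈ H') (h0 : s₀ ∉ H) :
    Two H H' s₀ := ⟨h2.le, h1, h0, h2.mul⟩

/-- The corestriction of a locally trivial cocycle is locally trivial. -/
theorem co_loc (h2 : Two H H' s) {E Ω' : Type} [Field E] [Field Ω'] [Algebra K E]
    [Algebra E Ω'] [Algebra K Ω'] [Algebra F Ω'] [IsScalarTower K E Ω'] [IsScalarTower K F Ω']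
    {f : H → Pt W (Sep F)} (hf : IsCocOn W H f) (hl : LocTrivOn W H E Ω' f) :
    LocTrivOn W H' E Ω' (co W H' s f) := by
  intro ι
  obtain ⟨P, hP⟩ := hl ι
  have hPex : ∀ (t : Ω' ≃ₐ[E] Ω') (g : Sep F ≃ₐ[F] Sep F), g ∈ H → (∀ x, t (ι x) = ι (g x)) →
      act W (ι.restrictScalars K) (ex f g) = act W (rs K t) P - P := by
    intro t g hg htg
    rw [ex_mem f hg]
    exact hP t ⟨g, hg⟩ htg
  have hj : ∀ (t : Ω' ≃ₐ[E] Ω') (g : Sep F ≃ₐ[F] Sep F) (a : Pt W (Sep F)),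
      (∀ x, t (ι x) = ι (g x)) → act W (ι.restrictScalars K) (ro W g a) =
        act W (rs K t) (act W (ι.restrictScalars K) a) := by
    intro t g a htg
    have e : (ι.restrictScalars K).comp (rs K g) = (rs K t).comp (ι.restrictScalars K) :=
      AlgHom.ext fun x => (htg x).symm
    unfold ro
    rw [act_act, act_act, e]
  by_cases h : ∃ (t₀ : Ω' ≃ₐ[E] Ω') (g₀ : Sep F ≃ₐ[F] Sep F), g₀ ∈ H' ∧ g₀ ∉ H ∧
      ∀ x, t₀ (ι x) = ι (g₀ x)
  · obtain ⟨t₀, g₀, hg1, hg2, hg3⟩ := h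
    have h3 := h2.change hg1 hg2
    refine ⟨P + act W (rs K t₀) P - act W (ι.restrictScalars K) (ro W s (ex f (s⁻¹ * g₀))),
      fun τ σ hτ => ?_⟩
    have h4 := cor_cob (G₁ := Ω' ≃ₐ[E] Ω') (A₁ := Pt W Ω') (ro W) (fun t => act W (rs K t))
      (fun t t' a => by
        show act W (rs K (t * t')) a = act W (rs K t) (act W (rs K t') a)
        rw [act_act]
        rfl) (act W (ι.restrictScalars K)) h3 (f := ex f) (P := P)
      (fun t g => ∀ x, t (ι x) = ι (g x))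
      (fun t g t' g' h5 h6 x => by
        show t (t' (ι x)) = ι (g (g' x))
        rw [h6, h5])
      (fun t g h5 x => by
        show t.symm (ι x) = ι (g.symm x)
        rw [AlgEquiv.symm_apply_eq, h5, AlgEquiv.apply_symm_apply])
      hj hPex hg3 (t := τ) (g := σ) σ.2 hτ
    have h5 := cor_change (ro W) (ro_mul W) (ex_coc hf) (ro_one W) h2 (h2.inv_mul hg1 hg2) σ.2
    rw [mul_inv_cancel_left] at h5
    show act W (ι.restrictScalars K) (cor (ro W) H s (ex f) σ) = _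
    rw [h5, map_add, map_sub, hj τ σ _ hτ] at h4
    rw [map_sub]
    rw [← sub_eq_zero] at h4 ⊢
    rw [← h4]
    abel
  · push Not at h
    obtain ⟨P₂, hP₂⟩ := hl (ι.comp (s : Sep F ≃ₐ[F] Sep F).toAlgHom)
    refine ⟨P + P₂, fun τ σ hτ => ?_⟩
    have hσ : (σ : Sep F ≃ₐ[F] Sep F) ∈ H := by
      by_contra hσ
      obtain ⟨x, hx⟩ := h τ σ σ.2 hσ
      exact hx (hτ x)
    have hc := h2.conj hσ
    have h4 := hP₂ τ ⟨_, hc⟩ (fun x => by
      show τ (ι (s x)) = ι (s (s.symm ((σ : Sep F ≃ₐ[F] Sep F) (s x))))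
      rw [hτ, AlgEquiv.apply_symm_apply])
    have h5 : act W (ι.restrictScalars K) (ro W s (ex f (s⁻¹ * σ * s))) =
        act W (rs K τ) P₂ - P₂ := by
      rw [← h4, ex_mem f hc]
      unfold ro
      rw [act_act]
      rfl
    show act W (ι.restrictScalars K) (cor (ro W) H s (ex f) σ) = _
    unfold cor
    rw [if_pos hσ, map_add, hPex τ σ hσ hτ, h5, map_add]
    abel

end cor

section inv

variable {K F : Type} [Field K] [Field F] [Algebra K F] {W : WeierstrassCurve K}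

/-- The conjugation `σ ↦ τ⁻¹ σ τ`. -/
noncomputable def kap (hN : Preserves K F (Sep F)) (τ : Sep F ≃ₐ[K] Sep F) :
    (Sep F ≃ₐ[F] Sep F) →* (Sep F ≃ₐ[F] Sep F) :=
  MonoidHom.mk' (fun σ => (exists_conj hN τ σ).choose) (by
    intro g h
    ext x
    apply τ.injective
    have h1 := (exists_conj hN τ (g * h)).choose_spec x
    have h2 := (exists_conj hN τ g).choose_spec
    have h3 := (exists_conj hN τ h).choose_spec x
    rw [h1]
    show g (h (τ x)) = τ ((exists_conj hN τ g).choose ((exists_conj hN τ h).choose x))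
    rw [h2, h3])

theorem kap_spec (hN : Preserves K F (Sep F)) (τ : Sep F ≃ₐ[K] Sep F) (σ : Sep F ≃ₐ[F] Sep F)
    (x : Sep F) : τ (kap hN τ σ x) = σ (τ x) := (exists_conj hN τ σ).choose_spec x

theorem kap_eq (hN : Preserves K F (Sep F)) (τ : Sep F ≃ₐ[K] Sep F) {σ σ' : Sep F ≃ₐ[F] Sep F}
    (h : ∀ x, τ (σ' x) = σ (τ x)) : kap hN τ σ = σ' := by
  ext x
  apply τ.injective
  rw [kap_spec, h]

theorem kap_mem (hN : Preserves K F (Sep F)) {L : IntermediateField K (Sep F)}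
    {τ : Sep F ≃ₐ[K] Sep F} (hτ : ∀ x ∈ L, τ x = x) (g : Sep F ≃ₐ[F] Sep F) :
    kap hN τ g ∈ GalOver L ↔ g ∈ GalOver L := by
  constructor
  · intro h x hx
    have h1 := kap_spec hN τ g x
    rw [h x hx, hτ x hx] at h1
    exact h1.symm
  · intro h x hx
    apply τ.injective
    rw [kap_spec, hτ x hx]
    exact h x hx

theorem kap_surj (hN : Preserves K F (Sep F)) (τ : Sep F ≃ₐ[K] Sep F) (s : Sep F ≃ₐ[F] Sep F) :
    ∃ s', kap hN τ s' = s := by
  obtain ⟨s', hs'⟩ := exists_conj hN τ⁻¹ s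
  refine ⟨s', kap_eq hN τ fun x => ?_⟩
  have h := hs' (τ x)
  have h1 : τ (τ⁻¹ (s' (τ x))) = s' (τ x) := τ.apply_symm_apply _
  have h2 : τ⁻¹ (τ x) = x := τ.symm_apply_apply x
  rw [← h1, h, h2]

theorem kap_ro (hN : Preserves K F (Sep F)) (τ : Sep F ≃ₐ[K] Sep F) (g : Sep F ≃ₐ[F] Sep F)
    (a : Pt W (Sep F)) : act W (ak τ) (ro W (kap hN τ g) a) = ro W g (act W (ak τ) a) := by
  have e : (ak τ).comp (rs K (kap hN τ g)) = (rs K g).comp (ak τ) :=
    AlgHom.ext fun x => kap_spec hN τ g x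
  unfold ro
  rw [act_act, act_act, e]

variable {L L' : IntermediateField K (Sep F)} {s : Sep F ≃ₐ[F] Sep F}

theorem co_inv₁ (hN : Preserves K F (Sep F)) (h2 : Two (GalOver L') (GalOver L) s)
    (hLL : L ≤ L') {c : ℕ → GalOver L' → Pt W (Sep F)} (hc : IsTCOn W (GalOver L') c)
    {τ : Sep F ≃ₐ[K] Sep F} (hτ : ∀ x ∈ L', τ x = x) {m : ℕ} {Q : ℕ → Pt W (Sep F)}
    (hQ : IsTM W Q) (hm : ∀ (n : ℕ) (σ σ' : GalOver L'),
      (∀ x, τ ((σ' : Sep F ≃ₐ[F] Sep F) x) = (σ : Sep F ≃ₐ[F] Sep F) (τ x)) →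
      2 ^ m • (act W (ak τ) (c n σ') - c n σ) =
        act W (rs K (σ : Sep F ≃ₐ[F] Sep F)) (Q n) - Q n) :
    ∃ X : ℕ → Pt W (Sep F), IsTM W X ∧ ∀ (n : ℕ) (σ σ' : GalOver L),
      (∀ x, τ ((σ' : Sep F ≃ₐ[F] Sep F) x) = (σ : Sep F ≃ₐ[F] Sep F) (τ x)) →
      2 ^ m • (act W (ak τ) (co W (GalOver L) s (c n) σ') - co W (GalOver L) s (c n) σ) =
        act W (rs K (σ : Sep F ≃ₐ[F] Sep F)) (X n) - X n := by
  obtain ⟨s', hs'⟩ := kap_surj hN τ s
  have hτL : ∀ x ∈ L, τ x = x := fun x hx => hτ x (hLL hx)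
  have h3 : s' ∈ GalOver L := (kap_mem hN hτL s').1 (by rw [hs']; exact h2.mem)
  have h4 : s' ∉ GalOver L' := fun h => h2.notMem (by rw [← hs']; exact (kap_mem hN hτ s').2 h)
  have h5 := h2.inv_mul h3 h4
  have hex0 : ∀ g, ex (c 0) g = 0 := by
    intro g
    unfold ex
    split_ifs with h
    · exact hc.zero _
    · rfl
  have hex2 : ∀ n g, 2 • ex (c (n + 1)) g = ex (c n) g := by
    intro n g
    unfold ex
    split_ifs with h
    · exact hc.two n _
    · exact smul_zero _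
  refine ⟨fun n => 2 ^ m • ro W s (act W (ak τ) (ex (c n) (kap hN τ (s⁻¹ * s')))) +
    (Q n + ro W s (Q n)), ⟨?_, fun n => ?_⟩, fun n σ σ' hσ => ?_⟩
  · simp only [hex0, map_zero, smul_zero, hQ.zero, add_zero]
  · have e1 : 2 • ro W s (act W (ak τ) (ex (c (n + 1)) (kap hN τ (s⁻¹ * s')))) =
        ro W s (act W (ak τ) (ex (c n) (kap hN τ (s⁻¹ * s')))) := by
      rw [← map_nsmul, ← map_nsmul, hex2]
    have e2 : 2 • ro W s (Q (n + 1)) = ro W s (Q n) := by rw [← map_nsmul, hQ.two]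
    rw [smul_add, smul_add, hQ.two, smul_comm, e1, e2]
  · have h6 := cor_inv (ro W) (kap hN τ) (act W (ak τ)) (kap_ro hN τ) (kap_mem hN hτ) (ro_mul W)
      (ro_one W) (ex_coc (hc.coc n)) h2 hs' h5 (N := 2 ^ m) (Q := Q n) (fun g hg => by
        have hg' := (kap_mem hN hτ g).2 hg
        rw [ex_mem _ hg, ex_mem _ hg']
        exact hm n ⟨g, hg⟩ ⟨_, hg'⟩ (kap_spec hN τ g)) σ.2
    rw [kap_eq hN τ hσ] at h6
    exact h6

/-- The class of the corestriction is fixed. -/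
theorem co_inv (hN : Preserves K F (Sep F)) (h2 : Two (GalOver L') (GalOver L) s)
    (hLL : L ≤ L') (hL : ∀ τ : Sep F ≃ₐ[K] Sep F, (∀ x ∈ L, τ x = x) →
      (∀ x ∈ L', τ x = x) ∨ ∀ x ∈ L', s⁻¹ (τ x) = x)
    {c : ℕ → GalOver L' → Pt W (Sep F)} (hc : IsTCOn W (GalOver L') c) (hi : IsInvOn W L' c) :
    IsInvOn W L (fun n => co W (GalOver L) s (c n)) := by
  intro τ hτ
  rcases hL τ hτ with h | h
  · obtain ⟨m, Q, hQ, hm⟩ := hi τ h
    obtain ⟨X, hX, hX'⟩ := co_inv₁ hN h2 hLL hc h hQ hm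
    exact ⟨m, X, hX, hX'⟩
  · -- `τ = s τ₁`, where `τ₁` is trivial on `L'`
    set τ₁ : Sep F ≃ₐ[K] Sep F := τ.trans (s⁻¹.restrictScalars K) with hτ₁
    have hτ₁x : ∀ x, s (τ₁ x) = τ x := fun x => s.apply_symm_apply (τ x)
    obtain ⟨m, Q, hQ, hm⟩ := hi τ₁ h
    obtain ⟨X, hX, hX'⟩ := co_inv₁ hN h2 hLL hc h hQ hm
    have hex0 : ∀ g, ex (c 0) g = 0 := by
      intro g
      unfold ex
      split_ifs with h
      · exact hc.zero _
      · rfl
    have hex2 : ∀ n g, 2 • ex (c (n + 1)) g = ex (c n) g := by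
      intro n g
      unfold ex
      split_ifs with h
      · exact hc.two n _
      · exact smul_zero _
    have hco2 : ∀ n (g : GalOver L), 2 • co W (GalOver L) s (c (n + 1)) g =
        co W (GalOver L) s (c n) g := by
      intro n g
      show 2 • cor (ro W) _ s (ex (c (n + 1))) g = cor (ro W) _ s (ex (c n)) g
      unfold cor
      split_ifs with h
      · rw [smul_add, hex2, ← map_nsmul, hex2]
      · rw [smul_add, hex2, ← map_nsmul, hex2]
    have hco0 : ∀ (g : GalOver L), co W (GalOver L) s (c 0) g = 0 := by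
      intro g
      show cor (ro W) _ s (ex (c 0)) g = 0
      unfold cor
      simp only [hex0, map_zero, add_zero, ite_self]
    refine ⟨m, fun n => 2 ^ m • co W (GalOver L) s (c n) ⟨s, h2.mem⟩ + ro W s (X n),
      ⟨?_, fun n => ?_⟩, fun n σ σ' hσ => ?_⟩
    · simp only [hco0, smul_zero, hX.zero, map_zero, add_zero]
    · rw [smul_add, smul_comm, hco2, ← map_nsmul, hX.two]
    · set C := co W (GalOver L) s (c n) with hC
      let S : GalOver L := ⟨s, h2.mem⟩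
      have hmul : ∀ σ τ : GalOver L, C (σ * τ) = C σ + ro W (σ : Sep F ≃ₐ[F] Sep F) (C τ) :=
        fun σ τ => cor_mul (ro W) (ro_mul W) (ex_coc (hc.coc n)) h2 σ.2 τ.2
      have h6 := hX' n (S⁻¹ * σ * S) σ' (fun x => by
        show τ₁ ((σ' : Sep F ≃ₐ[F] Sep F) x) = s.symm ((σ : Sep F ≃ₐ[F] Sep F) (s (τ₁ x)))
        rw [hτ₁x, ← hσ x, ← hτ₁x, AlgEquiv.symm_apply_apply])
      have h7 : act W (ak τ) (C σ') = ro W s (act W (ak τ₁) (C σ')) := by
        have e : ak τ = (rs K s).comp (ak τ₁) := AlgHom.ext fun x => (hτ₁x x).symm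
        unfold ro
        rw [act_act, e]
      have h8 : ro W s (C (S⁻¹ * σ * S)) = C σ + ro W σ (C S) - C S := by
        have e1 := hmul S (S⁻¹ * σ * S)
        have e2 := hmul σ S
        have e3 : S * (S⁻¹ * σ * S) = σ * S := by group
        rw [e3, e2] at e1
        rw [e1]
        show _ = C S + ro W s (C (S⁻¹ * σ * S)) - C S
        abel
      have h9 : ro W s (act W (rs K ((S⁻¹ * σ * S : GalOver L) : Sep F ≃ₐ[F] Sep F)) (X n)) =
          ro W σ (ro W s (X n)) := by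
        show ro W s (ro W (s⁻¹ * (σ : Sep F ≃ₐ[F] Sep F) * s) (X n)) = _
        rw [← ro_mul, ← ro_mul]
        have e : s * (s⁻¹ * (σ : Sep F ≃ₐ[F] Sep F) * s) = σ * s := by group
        rw [e]
      have h10 := congrArg (ro W s) h6
      rw [map_nsmul, map_sub, map_sub, h9, ← h7, h8] at h10
      show 2 ^ m • (act W (ak τ) (C σ') - C σ) = ro W σ (2 ^ m • C S + ro W s (X n)) -
        (2 ^ m • C S + ro W s (X n))
      rw [map_add, map_nsmul]
      have h11 : act W (ak τ) (C σ') - C σ =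
          (act W (ak τ) (C σ') - (C σ + ro W σ (C S) - C S)) + (ro W σ (C S) - C S) := by abel
      rw [h11, smul_add, h10, smul_sub]
      abel

end inv

end Pool.Agent.K6.H71.MQ
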