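import Pool.Agent.K6.H71.MQ.Pol

/-!
# The statement of the Tate conjecture at two for elliptic surfaces over coverings of the line

`K = k(t)`, `F = k'(t)` with `k'` a separable closure of `k`, `Ω = Sep F` a separable closure of `F`. A
finite extension `L` of `K` in `Ω` is the function field of a curve over (a finite extension of) `k`,
and `F L` is the function field of this curve over `k'`. The Galois groups of `Ω` over `L` and `F L`,
the classes in the 2-adic Selmer group of an elliptic curve `W` over `F L`, and the statement that those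
which are fixed by the Galois group of `L` come from `W(L)`.
-/

set_option autoImplicit false

open Polynomial IsDedekindDomain WeierstrassCurve WeierstrassCurve.Affine
open scoped Classical

namespace Pool.Agent.K6.H71.MQ

open Pool.Agent.TH115.GD

section defs

variable {K F : Type} [Field K] [Field F] [Algebra K F]

/-- `σ` is in the Galois group of `Sep F` over the composite `F L` of `F` and `L`. -/
def Over (L : IntermediateField K (Sep F)) (σ : Sep F ≃ₐ[F] Sep F) : Prop := ∀ x ∈ L, σ x = x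

variable (W : WeierstrassCurve K) (L : IntermediateField K (Sep F))

/-- Continuous 1-cocycles of `Gal(Sep F / F L)` with values in `W(Sep F)`: only the values of `f` on
this subgroup of `Gal(Sep F / F)` matter. -/
structure IsCocL (f : (Sep F ≃ₐ[F] Sep F) → Pt W (Sep F)) : Prop where
  lc : ∀ σ, Over L σ → ∃ U : Set (Sep F ≃ₐ[F] Sep F), IsOpen U ∧ σ ∈ U ∧
    ∀ τ ∈ U, Over L τ → f τ = f σ
  mul : ∀ σ τ, Over L σ → Over L τ → f (σ * τ) = f σ + act W (rs K σ) (f τ)

/-- `c` is a continuous 1-cocycle of `Gal(Sep F / F L)` with values in the Tate module `T_2 W`: `c n` is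
a cocycle with values in the points of order `2 ^ n`, and `2 c (n + 1) = c n`. -/
structure IsTCL (c : ℕ → (Sep F ≃ₐ[F] Sep F) → Pt W (Sep F)) : Prop where
  coc : ∀ n, IsCocL W L (c n)
  zero : ∀ σ, Over L σ → c 0 σ = 0
  two : ∀ n σ, Over L σ → 2 • c (n + 1) σ = c n σ

/-- The class of `c` in `H ^ 1 (F L, V_2 W)` is fixed by the Galois group of `L`: for each automorphism
`τ` of `Sep F` over `L` there is an `m` such that `2 ^ m (τ c - c)` is the coboundary of an element `Q` of
the Tate module. Here `(τ c) (σ) = τ (c (σ'))` with `σ' = τ⁻¹ σ τ`. -/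
def IsInvL (c : ℕ → (Sep F ≃ₐ[F] Sep F) → Pt W (Sep F)) : Prop :=
  ∀ τ : Sep F ≃ₐ[K] Sep F, (∀ x ∈ L, τ x = x) → ∃ (m : ℕ) (Q : ℕ → Pt W (Sep F)), IsTM W Q ∧
    ∀ (n : ℕ) (σ σ' : Sep F ≃ₐ[F] Sep F), Over L σ → Over L σ' → (∀ x, τ (σ' x) = σ (τ x)) →
      2 ^ m • (act W (ak τ) (c n σ') - c n σ) = act W (rs K σ) (Q n) - Q n

/-- `E` is a completion of `F` and `Ω'` a separable closure of `E`. The fields `E ι(L)`, for the
embeddings `ι` of `Sep F` in `Ω'` over `F`, are the completions of `F L` at the places above the given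
place of `F`. For each `ι` the restriction of `f` to the Galois group of `Ω'` over `E ι(L)`, with values
in `W(Ω')`, is a coboundary: there is a point `P` in `W(Ω')` with `f(τ|Sep F) = τ P - P` for all `τ` in
`Gal(Ω' / E)` which are trivial on `ι(L)`. -/
def LocTrivL (E Ω' : Type) [Field E] [Field Ω'] [Algebra K E]
    [Algebra E Ω'] [Algebra K Ω'] [Algebra F Ω'] [IsScalarTower K E Ω'] [IsScalarTower K F Ω']
    (f : (Sep F ≃ₐ[F] Sep F) → Pt W (Sep F)) : Prop :=
  ∀ ι : Sep F →ₐ[F] Ω', ∃ P : Pt W Ω', ∀ (τ : Ω' ≃ₐ[E] Ω') (σ : Sep F ≃ₐ[F] Sep F), Over L σ →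
    (∀ x, τ (ι x) = ι (σ x)) → act W (ι.restrictScalars K) (f σ) = act W (rs K τ) P - P

/-- `f` is locally trivial at all the places of `F L`: those above the maximal ideals of `k'[t]` and
above `t = ∞`. -/
def LocallyTrivialL (k' : Type) [Field k'] [Algebra k'[X] F] [IsFractionRing k'[X] F]
    (f : (Sep F ≃ₐ[F] Sep F) → Pt W (Sep F)) : Prop :=
  (∀ v : HeightOneSpectrum k'[X], LocTrivL W L (Comp k'[X] F v) (Sep (Comp k'[X] F v)) f) ∧
  LocTrivL W L (CompInf k' F) (Sep (CompInf k' F)) f

/-- The Tate conjecture at the prime 2 for the elliptic surface with generic fibre `W` over the function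
field `L` of a curve: the classes in the 2-adic Selmer group `V_2 Sel(W / F L)` which are fixed by the
Galois group of `L` come from `W(L)`. If `c` is a cocycle of `Gal(Sep F / F L)` with values in `T_2 W`
which is everywhere locally trivial, and the class of `c` in `H ^ 1 (F L, V_2 W)` is fixed by the Galois
group of `L`, then there is an `m` such that for every `n` there are a point `P` of `W(L)` and a point `R`
with `2 ^ n R = P` and `2 ^ m c n σ = σ R - R` for all `σ` in `Gal(Sep F / F L)`. -/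
def TateAtTwoOver (k' : Type) [Field k'] [Algebra k'[X] F] [IsFractionRing k'[X] F] : Prop :=
  ∀ c : ℕ → (Sep F ≃ₐ[F] Sep F) → Pt W (Sep F), IsTCL W L c →
    (∀ n, LocallyTrivialL W L k' (c n)) → IsInvL W L c →
    ∃ m : ℕ, ∀ n, ∃ (P : Pt W L) (R : Pt W (Sep F)), 2 ^ n • R = act W L.val P ∧
      ∀ σ, Over L σ → 2 ^ m • c n σ = act W (rs K σ) R - R

end defs

section conv

variable {K F : Type} [Field K] [Field F] [Algebra K F] {W : WeierstrassCurve K}
  {L : IntermediateField K (Sep F)}

theorem tateAtTwoOver_of (k' : Type) [Field k'] [Algebra k'[X] F] [IsFractionRing k'[X] F]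
    (h : TateOver W k' L) : TateAtTwoOver W L k' := by
  intro c hc hl hi
  have h1 : IsTCOn W (GalOver L) (fun n σ => c n σ) := by
    refine ⟨fun n => ⟨?_, fun σ τ => (hc.coc n).mul σ τ σ.2 τ.2⟩, fun σ => hc.zero σ σ.2,
      fun n σ => hc.two n σ σ.2⟩
    rw [IsLocallyConstant.iff_exists_open]
    intro σ
    obtain ⟨U, hU, hσ, hU'⟩ := (hc.coc n).lc σ σ.2
    exact ⟨Subtype.val ⁻¹' U, hU.preimage continuous_subtype_val, hσ, fun τ hτ => hU' τ hτ τ.2⟩
  obtain ⟨m, hm⟩ := h _ h1 (fun n => ⟨fun v ι => by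
      obtain ⟨P, hP⟩ := (hl n).1 v ι
      exact ⟨P, fun τ σ hτ => hP τ σ σ.2 hτ⟩, fun ι => by
      obtain ⟨P, hP⟩ := (hl n).2 ι
      exact ⟨P, fun τ σ hτ => hP τ σ σ.2 hτ⟩⟩) (fun τ hτ => by
      obtain ⟨m, Q, hQ, hm⟩ := hi τ hτ
      exact ⟨m, Q, hQ, fun n σ σ' hσ => hm n σ σ' σ.2 σ'.2 hσ⟩)
  refine ⟨m, fun n => ?_⟩
  obtain ⟨P, R, e1, e2⟩ := hm n
  exact ⟨P, R, e1, fun σ hσ => e2 ⟨σ, hσ⟩⟩

end conv

end Pool.Agent.K6.H71.MQ
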